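import Pool.Agent.TC.Asp.Stmts

/-!
# Block ASP of MP_bc2780_gt: module CMP

The composition of a covering map and the quotient map of a finite group acting freely is a
covering map.
-/

set_option autoImplicit false

open Topology

namespace TC.Asp

theorem CMP : Stmt_CMP := by
  intro X Y Z G _ _ _ _ _ _ f q hf hq z
  have : ContinuousConstVAdd G Y := hq.toContinuousConstVAdd
  obtain ⟨y0, rfl⟩ := hq.surjective z
  obtain ⟨U0, hU0n, hU0⟩ := hq.disjoint y0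
  -- the evenly covered neighbourhoods of the points `g +ᵥ y0`
  have hev := fun g : G => hf (g +ᵥ y0)
  choose hd V hyV hVo hfV H hH using hev
  -- the small neighbourhood of `y0`
  let U : Set Y := interior U0 ∩ ⋂ g : G, (fun y => g +ᵥ y) ⁻¹' V g
  have hUo : IsOpen U := isOpen_interior.inter
    (isOpen_iInter_of_finite fun g => (hVo g).preimage (continuous_const_vadd g))
  have hy0U : y0 ∈ U := ⟨mem_interior_iff_mem_nhds.2 hU0n, Set.mem_iInter.2 fun g => hyV g⟩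
  have hUV : ∀ g : G, ∀ u ∈ U, g +ᵥ u ∈ V g := fun g u hu => Set.mem_iInter.1 hu.2 g
  have hdis : ∀ (g : G) (u v : Y), u ∈ U → v ∈ U → g +ᵥ u = v → g = 0 := fun g u v hu hv h =>
    hU0 g ⟨v, ⟨u, interior_subset hu.1, h⟩, interior_subset hv.1⟩
  have hqo : IsOpenMap q := hq.isCoveringMap.isOpenMap
  have hqf : IsOpenMap (q ∘ f) := hqo.comp hf.isOpenMap
  have hqc : Continuous (q ∘ f) := hq.continuous.comp hf.continuous
  have hqg : ∀ (g : G) (y : Y), q (g +ᵥ y) = q y := fun g y => hq.map_vadd g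
  -- sheets
  let ι : Type := Σ g : G, f ⁻¹' {g +ᵥ y0}
  let : TopologicalSpace ι := ⊥
  have : DiscreteTopology ι := ⟨rfl⟩
  let S : ι → Set X := fun i =>
    {x | ∃ h : f x ∈ V i.1, (H i.1 ⟨x, h⟩).2 = i.2 ∧ ∃ u ∈ U, i.1 +ᵥ u = f x}
  have hexh : (q ∘ f) ⁻¹' (q '' U) ⊆ ⋃ i, S i := by
    rintro x ⟨u, hu, hux⟩
    obtain ⟨g, hg⟩ := hq.apply_eq_iff_mem_orbit.1 hux.symm
    have hg' : g +ᵥ u = f x := hg
    have hx : f x ∈ V g := hg' ▸ hUV g u hu
    exact Set.mem_iUnion.2 ⟨⟨g, (H g ⟨x, hx⟩).2⟩, hx, rfl, u, hu, hg'⟩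
  by_cases hne : Nonempty ι
  swap
  · have : IsEmpty ι := not_nonempty_iff.1 hne
    refine (IsEvenlyCovered.of_preimage_eq_empty ι ((hqo _ hUo).mem_nhds ⟨y0, hy0U, rfl⟩)
      ?_).to_isEvenlyCovered_preimage
    refine Set.eq_empty_of_forall_notMem fun x hx => ?_
    obtain ⟨i, -⟩ := Set.mem_iUnion.1 (hexh hx)
    exact isEmptyElim i
  have : Nonempty X := ⟨hne.some.2.1⟩
  have hsurj : ∀ i, (S i).SurjOn (q ∘ f) (q '' U) := by
    rintro ⟨g, i⟩ _ ⟨u, hu, rfl⟩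
    have hy := hUV g u hu
    let x : X := ((H g).symm (⟨g +ᵥ u, hy⟩, i)).1
    have hx : f x ∈ V g := ((H g).symm (⟨g +ᵥ u, hy⟩, i)).2
    have hHx : H g ⟨x, hx⟩ = (⟨g +ᵥ u, hy⟩, i) := (H g).apply_symm_apply _
    have hfx : f x = g +ᵥ u := by
      rw [← hH g ⟨x, hx⟩, hHx]
    exact ⟨x, ⟨hx, by rw [hHx], u, hu, hfx.symm⟩, by rw [Function.comp_apply, hfx, hqg]⟩
  have hSo : ∀ i, IsOpen (S i) := by
    rintro ⟨g, i⟩
    have := hd g
    have h1 : IsOpen {x : f ⁻¹' (V g) | (H g x).2 = i} :=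
      (isOpen_discrete {i}).preimage (continuous_snd.comp (H g).continuous)
    have h2 : IsOpen (f ⁻¹' ((fun u => g +ᵥ u) '' U)) :=
      (isOpenMap_vadd g U hUo).preimage hf.continuous
    have h3 := ((hfV g).isOpenMap_subtype_val _ h1).inter h2
    convert h3 using 1
    ext x
    constructor
    · rintro ⟨hx, h, u, hu, hux⟩
      exact ⟨⟨⟨x, hx⟩, h, rfl⟩, u, hu, hux⟩
    · rintro ⟨⟨⟨x', hx⟩, h, rfl⟩, u, hu, hux⟩
      exact ⟨hx, h, u, hu, hux⟩
  refine (IsEvenlyCovered.of_trivialization (t := (hqo U hUo).trivializationDiscrete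
    (f := q ∘ f) S (q '' U) ?_ ?_ hsurj ?_ hexh) ⟨y0, hy0U, rfl⟩).to_isEvenlyCovered_preimage
  · -- the open sets
    intro i W hW
    refine ⟨fun h => (h.preimage hqc).inter (hSo i), fun h => ?_⟩
    have : W = (q ∘ f) '' ((q ∘ f) ⁻¹' W ∩ S i) := by
      ext w
      constructor
      · intro hw
        obtain ⟨x, hx, hxw⟩ := hsurj i (hW hw)
        exact ⟨x, ⟨by rw [Set.mem_preimage, hxw]; exact hw, hx⟩, hxw⟩
      · rintro ⟨x, ⟨hx, -⟩, rfl⟩
        exact hx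
    rw [this]
    exact hqf _ h
  · -- injectivity
    rintro ⟨g, i⟩ x ⟨hx, hxi, u, hu, hux⟩ x' ⟨hx', hxi', u', hu', hux'⟩ h
    have h1 : q u = q u' := by
      have h2 : q (f x) = q (f x') := h
      rwa [← hux, ← hux', hqg, hqg] at h2
    obtain ⟨k, hk⟩ := hq.apply_eq_iff_mem_orbit.1 h1
    have hk' : k +ᵥ u' = u := hk
    have hk0 := hdis k u' u hu' hu hk'
    rw [hk0, zero_vadd] at hk'
    have hff : f x = f x' := by rw [← hux, ← hux', hk']
    have : H g ⟨x, hx⟩ = H g ⟨x', hx'⟩ := by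
      refine Prod.ext (Subtype.ext ?_) (hxi.trans hxi'.symm)
      rw [hH, hH]
      exact hff
    exact congrArg Subtype.val ((H g).injective this)
  · -- disjointness
    rintro ⟨g, i⟩ ⟨g', i'⟩ hne'
    refine Set.disjoint_left.2 ?_
    rintro x ⟨hx, hxi, u, hu, hux⟩ ⟨hx', hxi', u', hu', hux'⟩
    apply hne'
    have h1 : (-g' + g) +ᵥ u = u' := by
      have h2 : g +ᵥ u = g' +ᵥ u' := hux.trans hux'.symm
      rw [add_vadd]
      exact (by rw [h2, neg_vadd_vadd] : -g' +ᵥ (g +ᵥ u) = u')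
    have h2 := hdis _ _ _ hu hu' h1
    have h3 : g = g' := (neg_add_eq_zero.1 h2).symm
    subst h3
    have h4 : i = i' := hxi.symm.trans hxi'
    rw [h4]

end TC.Asp
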