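import Pool.Agent.TC.Asp.Stmts

/-!
# Block ASP of MP_bc2780_gt: module COV
-/

set_option autoImplicit false

open scoped symmDiff
open Topology

noncomputable section

namespace TC.Asp

section

variable {F : Type} [Fintype F] [DecidableEq F] {adj : F → F → Prop}

/-- For a free chamber system, the clique which moves `g0` to `g` is unique. -/
theorem cov_unique (S' : CS F adj) (hfree : ∀ A (g : S'.Ω), Clq adj A → S'.R A g = g → A = ∅)
    {T0 : Finset F} (hT0 : Clq adj T0) (g0 : S'.Ω) {A B : Finset F} (hA : A ⊆ T0) (hB : B ⊆ T0)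
    (h : S'.R A g0 = S'.R B g0) : A = B := by
  have h1 : S'.R (A ∆ B) g0 = g0 := by
    have h2 : S'.R A (S'.R B g0) = S'.R (A ∆ B) g0 :=
      S'.R_R A B g0 (hT0.mono (Finset.union_subset hA hB))
    rw [← h2, ← h, S'.R_R A A g0 (hT0.mono (Finset.union_subset hA hA)), symmDiff_self]
    exact S'.R_empty g0
  have h3 : A ∆ B = ∅ := by
    refine hfree _ g0 (hT0.mono ?_) h1
    intro s hs
    rw [Finset.mem_symmDiff] at hs
    rcases hs with h | h
    · exact hA h.1
    · exact hB h.1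
  exact symmDiff_eq_bot.1 h3

variable {P : Type} [TopologicalSpace P]

/-- The points of `P` which are only in mirrors of `T0` form an open set. -/
theorem cov_open (Q : Mir F adj P) (T0 : Finset F) : IsOpen {p : P | Q.T p ⊆ T0} := by
  classical
  have h : {p : P | Q.T p ⊆ T0} = ⋂ s ∈ (Finset.univ \ T0 : Finset F), (Q.fac s)ᶜ := by
    ext p
    simp only [Set.mem_ofPred_eq, Set.mem_iInter, Set.mem_compl_iff, Finset.mem_sdiff,
      Finset.mem_univ, true_and, Finset.subset_iff, Q.mem_T]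
    exact ⟨fun h s hs hp => hs (h hp), fun h s hp => by
      by_contra hs
      exact h s hs hp⟩
  rw [h]
  exact isOpen_biInter_finset fun s _ => (Q.closed s).isOpen_compl

end

theorem COV : Stmt_COV := by
  intro F _ _ adj S S' f P _ Q hfree y
  classical
  obtain ⟨⟨g0, p0⟩, rfl⟩ := (U.isQuotientMap S' Q).surjective y
  apply IsEvenlyCovered.to_isEvenlyCovered_preimage (I := {w : S.Ω // f.toFun w = g0})
  set T0 := Q.T p0 with hT0def
  have hT0 : Clq adj T0 := Q.T_clq p0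
  have hsub : ∀ {A B : Finset F}, A ⊆ T0 → B ⊆ T0 → A ∆ B ⊆ T0 := by
    intro A B hA hB s hs
    rw [Finset.mem_symmDiff] at hs
    rcases hs with h | h
    · exact hA h.1
    · exact hB h.1
  have hRR : ∀ (Z : CS F adj) {A B : Finset F} (w : Z.Ω), A ⊆ T0 → B ⊆ T0 →
      Z.R A (Z.R B w) = Z.R (A ∆ B) w := fun Z A B w hA hB =>
    Z.R_R A B w (hT0.mono (Finset.union_subset hA hB))
  -- the condition on chambers
  let G : S'.Ω → Prop := fun g => ∃ A ⊆ T0, g = S'.R A g0
  -- the clique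
  let cl : S'.Ω → Finset F := fun g => if h : G g then h.choose else ∅
  have hcl_sub : ∀ g, G g → cl g ⊆ T0 := by
    intro g hg
    simp only [cl, dif_pos hg]
    exact hg.choose_spec.1
  have hcl_eq : ∀ g, G g → g = S'.R (cl g) g0 := by
    intro g hg
    simp only [cl, dif_pos hg]
    exact hg.choose_spec.2
  have hcl_R : ∀ A ⊆ T0, cl (S'.R A g0) = A := by
    intro A hA
    have hg : G (S'.R A g0) := ⟨A, hA, rfl⟩
    exact (cov_unique S' hfree hT0 g0 hA (hcl_sub _ hg) (hcl_eq _ hg)).symm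
  have hG_R : ∀ g, G g → ∀ B ⊆ T0, G (S'.R B g) := by
    rintro g ⟨A, hA, rfl⟩ B hB
    exact ⟨B ∆ A, hsub hB hA, hRR S' g0 hB hA⟩
  have hcl_RR : ∀ g, G g → ∀ B ⊆ T0, cl (S'.R B g) = B ∆ cl g := by
    intro g hg B hB
    conv_lhs => rw [hcl_eq g hg, hRR S' g0 hB (hcl_sub g hg)]
    exact hcl_R _ (hsub hB (hcl_sub g hg))
  -- the neighbourhood
  let N : Set P := {p | Q.T p ⊆ T0}
  have hN : IsOpen N := cov_open Q T0
  let Vt : Set (S'.Ω × P) := {a | G a.1 ∧ a.2 ∈ N}
  have hVt : IsOpen Vt := by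
    have : Vt = {g | G g} ×ˢ N := by
      ext a
      exact Iff.rfl
    rw [this]
    exact (isOpen_discrete _).prod hN
  let V : Set (U S' Q) := U.mk S' Q '' Vt
  have hV_iff : ∀ a : S'.Ω × P, U.mk S' Q a ∈ V ↔ a ∈ Vt := by
    intro a
    constructor
    · rintro ⟨b, hb, hba⟩
      obtain ⟨h1, A, hA, h2⟩ := (U.mk_eq S' Q).1 hba
      obtain ⟨a1, a2⟩ := a
      obtain ⟨b1, b2⟩ := b
      dsimp only at h1 hA h2
      subst h1 h2
      exact ⟨hG_R _ hb.1 A (hA.trans hb.2), hb.2⟩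
    · exact fun ha => ⟨a, ha, rfl⟩
  have hVpre : U.mk S' Q ⁻¹' V = Vt := by
    ext a
    exact hV_iff a
  have hV : IsOpen V := by
    rw [← (U.isQuotientMap S' Q).isOpen_preimage, hVpre]
    exact hVt
  have hy : U.mk S' Q (g0, p0) ∈ V :=
    (hV_iff _).2 ⟨⟨∅, Finset.empty_subset _, (S'.R_empty g0).symm⟩, Finset.Subset.refl _⟩
  have hcont : Continuous (U.map f Q) := by
    rw [(U.isQuotientMap S Q).continuous_iff]
    have h1 : U.map f Q ∘ U.mk S Q = U.mk S' Q ∘ Prod.map f.toFun id := rfl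
    rw [h1]
    exact (U.isQuotientMap S' Q).continuous.comp (continuous_of_discreteTopology.prodMap continuous_id)
  -- the sheet number
  let ρ : S.Ω × P → S.Ω := fun a => S.R (cl (f.toFun a.1)) a.1
  -- preimage
  have hpre : ∀ a : S.Ω × P, U.map f Q (U.mk S Q a) ∈ V ↔ G (f.toFun a.1) ∧ a.2 ∈ N := by
    rintro ⟨w, p⟩
    rw [U.map_mk, hV_iff]
    exact Iff.rfl
  have hρ : ∀ a b : S.Ω × P, U.map f Q (U.mk S Q a) ∈ V → U.mk S Q a = U.mk S Q b → ρ a = ρ b := by
    rintro ⟨w, p⟩ ⟨w', p'⟩ hV h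
    obtain ⟨h1, A, hA, h2⟩ := (U.mk_eq S Q).1 h
    dsimp only at h1 hA h2
    subst h1 h2
    rw [hpre] at hV
    obtain ⟨hG, hp⟩ := hV
    dsimp only at hG hp
    have hA' : A ⊆ T0 := hA.trans hp
    change S.R (cl (f.toFun w)) w = S.R (cl (f.toFun (S.R A w))) (S.R A w)
    rw [f.map_R A w (hT0.mono hA'), hcl_RR _ hG A hA',
      hRR S w (hsub hA' (hcl_sub _ hG)) hA', symmDiff_comm A, symmDiff_assoc, symmDiff_self,
      symmDiff_bot]
  have hρf : ∀ a : S.Ω × P, U.map f Q (U.mk S Q a) ∈ V → f.toFun (ρ a) = g0 := by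
    rintro ⟨w, p⟩ hV
    rw [hpre] at hV
    obtain ⟨hG, hp⟩ := hV
    dsimp only at hG hp
    change f.toFun (S.R (cl (f.toFun w)) w) = g0
    rw [f.map_R _ w (hT0.mono (hcl_sub _ hG))]
    conv_lhs => rw [hcl_eq _ hG]
    rw [hcl_R _ (hcl_sub _ hG), hRR S' g0 (hcl_sub _ hG) (hcl_sub _ hG), symmDiff_self]
    exact S'.R_empty g0
  -- choose representatives
  let rp : U S Q → S.Ω × P := fun e => ((U.isQuotientMap S Q).surjective e).choose
  have hrp : ∀ e, U.mk S Q (rp e) = e := fun e => ((U.isQuotientMap S Q).surjective e).choose_spec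
  let rp' : U S' Q → S'.Ω × P := fun e => ((U.isQuotientMap S' Q).surjective e).choose
  have hrp' : ∀ e, U.mk S' Q (rp' e) = e := fun e =>
    ((U.isQuotientMap S' Q).surjective e).choose_spec
  -- the sections
  let σ : S.Ω → S'.Ω × P → U S Q := fun w a => U.mk S Q (S.R (cl a.1) w, a.2)
  have hσ : ∀ w, ∀ a b : S'.Ω × P, U.mk S' Q a ∈ V → U.mk S' Q a = U.mk S' Q b →
      σ w a = σ w b := by
    rintro w ⟨g, p⟩ ⟨g', p'⟩ hV h
    obtain ⟨h1, A, hA, h2⟩ := (U.mk_eq S' Q).1 h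
    dsimp only at h1 hA h2
    subst h1 h2
    rw [hV_iff] at hV
    obtain ⟨hG, hp⟩ := hV
    dsimp only at hG hp
    have hA' : A ⊆ T0 := hA.trans hp
    change U.mk S Q (S.R (cl g) w, p') = U.mk S Q (S.R (cl (S'.R A g)) w, p')
    rw [U.mk_eq, hcl_RR _ hG A hA']
    refine ⟨rfl, A, hA, ?_⟩
    dsimp only
    rw [hRR S w hA' (hcl_sub _ hG)]
  let r : U S Q → S.Ω := fun e => ρ (rp e)
  let sec : S.Ω → U S' Q → U S Q := fun w v => σ w (rp' v)
  have hr_mk : ∀ a : S.Ω × P, U.map f Q (U.mk S Q a) ∈ V → r (U.mk S Q a) = ρ a := by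
    intro a ha
    exact (hρ a _ ha (hrp _).symm).symm
  have hsec_mk : ∀ w, ∀ a : S'.Ω × P, U.mk S' Q a ∈ V → sec w (U.mk S' Q a) = σ w a := by
    intro w a ha
    exact (hσ w a _ ha (hrp' _).symm).symm
  have hpreopen : IsOpen (U.map f Q ⁻¹' V) := hV.preimage hcont
  have hr_cont : ContinuousOn r (U.map f Q ⁻¹' V) := by
    rw [(U.isQuotientMap S Q).continuousOn_isOpen_iff hpreopen]
    have h1 : ContinuousOn ρ (U.mk S Q ⁻¹' (U.map f Q ⁻¹' V)) := by
      apply Continuous.continuousOn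
      exact (continuous_of_discreteTopology (f := fun w : S.Ω => S.R (cl (f.toFun w)) w)).comp
        continuous_fst
    exact h1.congr fun a ha => hr_mk a ha
  have hsec_cont : ∀ w, ContinuousOn (sec w) V := by
    intro w
    rw [(U.isQuotientMap S' Q).continuousOn_isOpen_iff hV]
    have h1 : ContinuousOn (σ w) (U.mk S' Q ⁻¹' V) := by
      apply Continuous.continuousOn
      exact (U.isQuotientMap S Q).continuous.comp
        ((continuous_of_discreteTopology (f := fun g : S'.Ω => S.R (cl g) w)).prodMap continuous_id)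
    exact h1.congr fun a ha => hsec_mk w a ha
  -- `f (sec w v) = v` if `f w = g0`
  have hfsec : ∀ w, f.toFun w = g0 → ∀ v ∈ V, U.map f Q (sec w v) = v := by
    intro w hw v hv
    obtain ⟨⟨g, p⟩, rfl⟩ := (U.isQuotientMap S' Q).surjective v
    rw [hsec_mk w _ hv]
    rw [hV_iff] at hv
    obtain ⟨hG, hp⟩ := hv
    dsimp only at hG hp
    change U.mk S' Q (f.toFun (S.R (cl g) w), p) = U.mk S' Q (g, p)
    rw [f.map_R _ w (hT0.mono (hcl_sub _ hG)), hw, ← hcl_eq _ hG]
  have hrsec : ∀ w, f.toFun w = g0 → ∀ v ∈ V, r (sec w v) = w := by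
    intro w hw v hv
    have h0 := hfsec w hw v hv
    obtain ⟨⟨g, p⟩, rfl⟩ := (U.isQuotientMap S' Q).surjective v
    rw [hsec_mk w _ hv] at h0 ⊢
    have hv' := hv
    rw [hV_iff] at hv
    obtain ⟨hG, hp⟩ := hv
    dsimp only at hG hp
    change r (U.mk S Q (S.R (cl g) w, p)) = w
    rw [hr_mk _ (by
      change U.map f Q (σ w (g, p)) ∈ V
      rw [h0]
      exact hv')]
    change S.R (cl (f.toFun (S.R (cl g) w))) (S.R (cl g) w) = w
    rw [f.map_R _ w (hT0.mono (hcl_sub _ hG)), hw, ← hcl_eq _ hG,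
      hRR S w (hcl_sub _ hG) (hcl_sub _ hG), symmDiff_self]
    exact S.R_empty w
  have hsecr : ∀ e, U.map f Q e ∈ V → sec (r e) (U.map f Q e) = e := by
    intro e he
    obtain ⟨⟨w, p⟩, rfl⟩ := (U.isQuotientMap S Q).surjective e
    rw [hr_mk _ he]
    rw [U.map_mk] at he ⊢
    rw [hsec_mk _ _ he]
    rw [hV_iff] at he
    obtain ⟨hG, hp⟩ := he
    dsimp only at hG hp
    change U.mk S Q (S.R (cl (f.toFun w)) (S.R (cl (f.toFun w)) w), p) = U.mk S Q (w, p)
    rw [hRR S w (hcl_sub _ hG) (hcl_sub _ hG), symmDiff_self, show (⊥ : Finset F) = ∅ from rfl,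
      S.R_empty w]
  have hrf : ∀ e, U.map f Q e ∈ V → f.toFun (r e) = g0 := by
    intro e he
    apply hρf
    rw [hrp]
    exact he
  refine ⟨inferInstance, V, hy, hV, hpreopen, ?_⟩
  refine ⟨{ toFun := fun e => (⟨U.map f Q e.1, e.2⟩, ⟨r e.1, hrf e.1 e.2⟩)
            invFun := fun x => ⟨sec x.2.1 x.1.1, by
              rw [Set.mem_preimage, hfsec _ x.2.2 _ x.1.2]
              exact x.1.2⟩
            left_inv := fun e => Subtype.ext (hsecr e.1 e.2)
            right_inv := fun x => Prod.ext (Subtype.ext (hfsec _ x.2.2 _ x.1.2))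
              (Subtype.ext (hrsec _ x.2.2 _ x.1.2))
            continuous_toFun := ?_
            continuous_invFun := ?_ }, fun x => rfl⟩
  · refine Continuous.prodMk ?_ ?_
    · exact (hcont.comp continuous_subtype_val).subtype_mk _
    · exact (continuousOn_iff_continuous_domRestrict.1 hr_cont).subtype_mk _
  · refine Continuous.subtype_mk ?_ _
    have h1 : Continuous fun x : {w : S.Ω // f.toFun w = g0} × V => sec x.1.1 x.2.1 := by
      rw [continuous_prod_of_discrete_left]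
      intro w
      exact continuousOn_iff_continuous_domRestrict.1 (hsec_cont w.1)
    exact h1.comp continuous_swap

end TC.Asp
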