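import Pool.Agent.TC.Asp.Stmts

/-!
# Contractibility of the development
-/

set_option autoImplicit false

open scoped symmDiff
open Topology

noncomputable section

namespace TC.Asp

/-- The clamp to `[0,1]`. -/
def clp (u : ℝ) : ℝ := max 0 (min 1 u)

theorem clp_of_nonpos {u : ℝ} (h : u ≤ 0) : clp u = 0 := by
  unfold clp
  rw [max_eq_left]
  exact (min_le_right _ _).trans h

theorem clp_of_ge {u : ℝ} (h : 1 ≤ u) : clp u = 1 := by
  unfold clp
  rw [min_eq_left h, max_eq_right zero_le_one]

theorem continuous_clp : Continuous clp := by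
  unfold clp
  fun_prop

section ctr

variable {F : Type} [Fintype F] [DecidableEq F] {adj : F → F → Prop} {S : CS F adj} (L : Len S)
  {P : Type} [TopologicalSpace P] (Q : Mir F adj P) (r : Ret Q)

open Classical in
/-- The homotopy, with the length as an argument. -/
def Hn : ℕ → S.Ω → P → ℝ → U S Q
  | 0, w, p, _ => U.mk S Q (w, p)
  | n + 1, w, p, t =>
    if t ≤ 1 / ((n : ℝ) + 1) then
      U.mk S Q (w, r.h (L.D w) p (clp (((n : ℝ) + 1) * (((n : ℝ) + 2) * t - 1))))
    else if h : ∃ s ∈ L.D w, r.h (L.D w) p 1 ∈ Q.fac s then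
      Hn n (S.R {h.choose} w) (r.h (L.D w) p 1) t
    else U.mk S Q (w, p)

/-- The homotopy. -/
def Hh (w : S.Ω) (p : P) (t : ℝ) : U S Q := Hn L Q r (L.len w) w p t

theorem Hh_zero {w : S.Ω} (h : L.len w = 0) (p : P) (t : ℝ) :
    Hh L Q r w p t = U.mk S Q (w, p) := by
  unfold Hh
  rw [h]
  rfl

theorem Hh_le {w : S.Ω} {n : ℕ} (h : L.len w = n + 1) (p : P) {t : ℝ}
    (ht : t ≤ 1 / ((n : ℝ) + 1)) : Hh L Q r w p t =
      U.mk S Q (w, r.h (L.D w) p (clp (((n : ℝ) + 1) * (((n : ℝ) + 2) * t - 1)))) := by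
  unfold Hh
  rw [h]
  unfold Hn
  rw [if_pos ht]

omit [Fintype F] in
theorem D_ne {w : S.Ω} {n : ℕ} (h : L.len w = n + 1) : (L.D w).Nonempty :=
  L.D_nonempty w (by omega)

theorem Hh_gt {w : S.Ω} {n : ℕ} (h : L.len w = n + 1) (p : P) {t : ℝ}
    (ht : 1 / ((n : ℝ) + 1) < t) : ∃ s ∈ L.D w, r.h (L.D w) p 1 ∈ Q.fac s ∧
      Hh L Q r w p t = Hh L Q r (S.R {s} w) (r.h (L.D w) p 1) t := by
  have hex : ∃ s ∈ L.D w, r.h (L.D w) p 1 ∈ Q.fac s :=
    r.one _ p (L.D_clq w) (D_ne L h)
  refine ⟨hex.choose, hex.choose_spec.1, hex.choose_spec.2, ?_⟩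
  have h1 := L.len_R w _ hex.choose_spec.1
  have h2 : L.len (S.R {hex.choose} w) = n := by omega
  unfold Hh
  rw [h, h2]
  conv_lhs => unfold Hn
  rw [if_neg (not_le.2 ht), dif_pos hex]

theorem Hh_small {w : S.Ω} {n : ℕ} (h : L.len w = n) (p : P) {t : ℝ}
    (ht : t ≤ 1 / ((n : ℝ) + 1)) : Hh L Q r w p t = U.mk S Q (w, p) := by
  cases n with
  | zero => exact Hh_zero L Q r h p t
  | succ n =>
    push_cast at ht
    have hn : (0 : ℝ) ≤ n := Nat.cast_nonneg n
    have h1 : t ≤ 1 / ((n : ℝ) + 1) := by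
      refine ht.trans ?_
      apply one_div_le_one_div_of_le <;> linarith
    rw [Hh_le L Q r h p h1, clp_of_nonpos, r.zero _ _ (L.D_clq w) (D_ne L h)]
    rw [le_div_iff₀ (by linarith)] at ht
    have : ((n : ℝ) + 2) * t - 1 ≤ 0 := by linarith
    nlinarith

theorem mk_glue (w : S.Ω) (p : P) (s : F) (hp : p ∈ Q.fac s) :
    U.mk S Q (w, p) = U.mk S Q (S.R {s} w, p) := by
  rw [U.mk_eq]
  refine ⟨rfl, {s}, ?_, rfl⟩
  intro a ha
  rw [Finset.mem_singleton] at ha
  rw [ha, Q.mem_T]
  exact hp

theorem R_comm {w : S.Ω} {s s' : F} (hs : s ∈ L.D w) (hs' : s' ∈ L.D w) :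
    S.R {s} (S.R {s'} w) = S.R {s'} (S.R {s} w) := by
  have hc : Clq adj ({s} ∪ {s'}) := (L.D_clq w).mono (by
    intro a ha
    simp only [Finset.mem_union, Finset.mem_singleton] at ha
    rcases ha with rfl | rfl <;> assumption)
  rw [S.R_R _ _ _ hc, S.R_R _ _ _ (by rwa [Finset.union_comm]), symmDiff_comm]

theorem Hh_inv : ∀ (n : ℕ) (w : S.Ω), L.len w = n → ∀ s ∈ L.D w, ∀ p ∈ Q.fac s, ∀ t,
    Hh L Q r w p t = Hh L Q r (S.R {s} w) p t := by
  intro n
  induction n with
  | zero =>
    intro w hw s hs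
    have := L.len_R w s hs
    omega
  | succ n ih =>
    intro w hw s hs p hp t
    have hlen : L.len (S.R {s} w) = n := by
      have := L.len_R w s hs
      omega
    have hfix : ∀ u, r.h (L.D w) p u = p := fun u =>
      r.fix _ p u (L.D_clq w) (D_ne L hw) ⟨s, hs, hp⟩
    rcases le_or_gt t (1 / ((n : ℝ) + 1)) with ht | ht
    · rw [Hh_le L Q r hw p ht, hfix, Hh_small L Q r hlen p ht]
      exact mk_glue Q w p s hp
    · obtain ⟨s', hs', hq, he⟩ := Hh_gt L Q r hw p ht
      rw [hfix] at hq he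
      rw [he]
      by_cases hss : s' = s
      · rw [hss]
      · have hlen' : L.len (S.R {s'} w) = n := by
          have := L.len_R w s' hs'
          omega
        rw [ih _ hlen' s (L.mem_R w s' hs' s hs hss) p hp t,
          ih _ hlen s' (L.mem_R w s hs s' hs' (Ne.symm hss)) p hq t, R_comm L hs hs']

theorem Hh_gt' {w : S.Ω} {n : ℕ} (h : L.len w = n + 1) (p : P) {t : ℝ}
    (ht : 1 / ((n : ℝ) + 1) < t) (s : F) (hs : s ∈ L.D w) (hq : r.h (L.D w) p 1 ∈ Q.fac s) :
      Hh L Q r w p t = Hh L Q r (S.R {s} w) (r.h (L.D w) p 1) t := by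
  obtain ⟨s', hs', hq', he⟩ := Hh_gt L Q r h p ht
  rw [he]
  by_cases hss : s' = s
  · rw [hss]
  · have hlen' : L.len (S.R {s'} w) = n := by
      have := L.len_R w s' hs'
      omega
    have hlen : L.len (S.R {s} w) = n := by
      have := L.len_R w s hs
      omega
    rw [Hh_inv L Q r n _ hlen' s (L.mem_R w s' hs' s hs hss) _ hq t,
      Hh_inv L Q r n _ hlen s' (L.mem_R w s hs s' hs' (Ne.symm hss)) _ hq' t, R_comm L hs hs']

theorem Hh_R1 (w : S.Ω) (s : F) (p : P) (hp : p ∈ Q.fac s) (t : ℝ) :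
    Hh L Q r (S.R {s} w) p t = Hh L Q r w p t := by
  rcases L.mem_or w s with h | h
  · exact (Hh_inv L Q r _ w rfl s h p hp t).symm
  · rw [Hh_inv L Q r _ _ rfl s h p hp t]
    congr 1
    have hc : Clq adj ({s} ∪ {s}) := by
      intro a ha b hb hab
      simp only [Finset.union_self, Finset.mem_singleton] at ha hb
      exact absurd (ha.trans hb.symm) hab
    rw [S.R_R _ _ _ hc, symmDiff_self]
    exact S.R_empty w

theorem Hh_RA (p : P) (t : ℝ) (A : Finset F) (hA : A ⊆ Q.T p) (w : S.Ω) :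
    Hh L Q r (S.R A w) p t = Hh L Q r w p t := by
  induction A using Finset.induction_on with
  | empty => rw [S.R_empty]
  | insert s B hs ih =>
    have hB : B ⊆ Q.T p := (Finset.subset_insert _ _).trans hA
    have hsT : s ∈ Q.T p := hA (Finset.mem_insert_self _ _)
    have e : insert s B = ({s} : Finset F) ∆ B := by
      ext u
      simp only [Finset.mem_insert, Finset.mem_symmDiff, Finset.mem_singleton]
      constructor
      · rintro (rfl | h)
        · exact Or.inl ⟨rfl, hs⟩
        · refine Or.inr ⟨h, ?_⟩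
          rintro rfl; exact hs h
      · rintro (⟨h, -⟩ | ⟨h, -⟩)
        · exact Or.inl h
        · exact Or.inr h
    have hc : Clq adj ({s} ∪ B) := (Q.T_clq p).mono (by
      rw [← Finset.insert_eq]
      exact hA)
    rw [e, ← S.R_R _ _ _ hc, Hh_R1 L Q r _ s p ((Q.mem_T p s).1 hsT), ih hB]

theorem continuous_Hh : ∀ (n : ℕ) (w : S.Ω), L.len w = n →
    Continuous fun a : P × ℝ => Hh L Q r w a.1 a.2 := by
  have hmk : ∀ w : S.Ω, Continuous fun p : P => U.mk S Q (w, p) := fun w =>
    (U.isQuotientMap S Q).continuous.comp (Continuous.prodMk_right w)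
  intro n
  induction n with
  | zero =>
    intro w hw
    have : (fun a : P × ℝ => Hh L Q r w a.1 a.2) = fun a => U.mk S Q (w, a.1) := by
      funext a
      exact Hh_zero L Q r hw _ _
    rw [this]
    exact (hmk w).comp continuous_fst
  | succ n ih =>
    intro w hw
    have hh := r.cont (L.D w) (L.D_clq w) (D_ne L hw)
    have hh1 : Continuous fun a : P × ℝ => r.h (L.D w) a.1 1 :=
      hh.comp (continuous_fst.prodMk continuous_const)
    let K : Option F → Set (P × ℝ) := fun o => match o with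
      | none => {a | a.2 ≤ 1 / ((n : ℝ) + 1)}
      | some s => {a | 1 / ((n : ℝ) + 1) ≤ a.2 ∧ s ∈ L.D w ∧ r.h (L.D w) a.1 1 ∈ Q.fac s}
    refine LocallyFinite.continuous (f := K) (locallyFinite_of_finite K) ?_ ?_ ?_
    · rw [Set.eq_univ_iff_forall]
      intro a
      rcases le_total a.2 (1 / ((n : ℝ) + 1)) with h | h
      · exact Set.mem_iUnion.2 ⟨none, h⟩
      · obtain ⟨s, hs, hq⟩ := r.one (L.D w) a.1 (L.D_clq w) (D_ne L hw)
        exact Set.mem_iUnion.2 ⟨some s, h, hs, hq⟩
    · rintro (_ | s)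
      · exact isClosed_le continuous_snd continuous_const
      · by_cases hs : s ∈ L.D w
        · have : K (some s) = {a | 1 / ((n : ℝ) + 1) ≤ a.2} ∩
              (fun a : P × ℝ => r.h (L.D w) a.1 1) ⁻¹' (Q.fac s) := by
            ext a
            exact ⟨fun h => ⟨h.1, h.2.2⟩, fun h => ⟨h.1, hs, h.2⟩⟩
          rw [this]
          exact (isClosed_le continuous_const continuous_snd).inter ((Q.closed s).preimage hh1)
        · have : K (some s) = ∅ := by
            ext a
            exact ⟨fun h => hs h.2.1, fun h => h.elim⟩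
          rw [this]
          exact isClosed_empty
    · rintro (_ | s)
      · have hc : Continuous fun a : P × ℝ => U.mk S Q (w, r.h (L.D w) a.1
            (clp (((n : ℝ) + 1) * (((n : ℝ) + 2) * a.2 - 1)))) := by
          refine (hmk w).comp (hh.comp (continuous_fst.prodMk (continuous_clp.comp ?_)))
          fun_prop
        exact hc.continuousOn.congr fun a ha => Hh_le L Q r hw a.1 ha
      · by_cases hs : s ∈ L.D w
        · have hlen : L.len (S.R {s} w) = n := by
            have := L.len_R w s hs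
            omega
          have hc : Continuous fun a : P × ℝ =>
              Hh L Q r (S.R {s} w) (r.h (L.D w) a.1 1) a.2 :=
            (ih _ hlen).comp (hh1.prodMk continuous_snd)
          refine hc.continuousOn.congr fun a ha => ?_
          obtain ⟨h1, -, h3⟩ := ha
          rcases h1.lt_or_eq with h | h
          · exact Hh_gt' L Q r hw a.1 h s hs h3
          · have e : clp (((n : ℝ) + 1) * (((n : ℝ) + 2) * a.2 - 1)) = 1 := by
              apply clp_of_ge
              rw [← h]
              have hn : (0 : ℝ) < (n : ℝ) + 1 := by positivity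
              field_simp
              linarith
            show Hh L Q r w a.1 a.2 = Hh L Q r (S.R {s} w) (r.h (L.D w) a.1 1) a.2
            rw [Hh_le L Q r hw a.1 h.symm.le, e, Hh_small L Q r hlen _ h.symm.le]
            exact mk_glue Q w _ s h3
        · intro a ha
          exact absurd ha.2.1 hs

/-- The homotopy on the glued space. -/
def Hu (x : U S Q × ℝ) : U S Q :=
  Quotient.lift (fun a : S.Ω × P => Hh L Q r a.1 a.2 x.2) (by
    rintro ⟨w, p⟩ ⟨w', p'⟩ ⟨h1, A, hA, h2⟩
    dsimp only at h1 h2 hA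
    subst h1 h2
    exact (Hh_RA L Q r p' x.2 A hA w).symm) x.1

theorem Hu_mk (w : S.Ω) (p : P) (t : ℝ) : Hu L Q r (U.mk S Q (w, p), t) = Hh L Q r w p t := rfl

theorem continuous_Hu : Continuous (Hu L Q r) := by
  refine (U.isQuotientMap S Q).continuous_lift_prod_left ?_
  have : Continuous fun a : S.Ω × (P × ℝ) => Hh L Q r a.1 a.2.1 a.2.2 := by
    rw [continuous_prod_of_discrete_left]
    intro w
    exact continuous_Hh L Q r _ w rfl
  exact this.comp ((continuous_fst.comp continuous_fst).prodMk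
    ((continuous_snd.comp continuous_fst).prodMk continuous_snd))

theorem Hh_start (w : S.Ω) (p : P) : Hh L Q r w p 0 = U.mk S Q (w, p) :=
  Hh_small L Q r rfl p (by positivity)

theorem Hh_end : ∀ (n : ℕ) (w : S.Ω), L.len w = n → ∀ p, ∃ q,
    Hh L Q r w p 1 = U.mk S Q (L.base, q) := by
  intro n
  induction n with
  | zero =>
    intro w hw p
    refine ⟨p, ?_⟩
    rw [Hh_zero L Q r hw, L.eq_base w hw]
  | succ n ih =>
    intro w hw p
    rcases le_or_gt 1 (1 / ((n : ℝ) + 1)) with h | h
    · obtain ⟨s, hs, hq⟩ := r.one (L.D w) p (L.D_clq w) (D_ne L hw)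
      have hn : (0 : ℝ) ≤ n := Nat.cast_nonneg n
      have hn0 : (n : ℝ) = 0 := by
        rw [le_div_iff₀ (by positivity)] at h
        linarith
      have hn0' : n = 0 := by exact_mod_cast hn0
      refine ⟨r.h (L.D w) p 1, ?_⟩
      have hl : L.len (S.R {s} w) = 0 := by
        have := L.len_R w s hs
        omega
      rw [Hh_le L Q r hw p h, clp_of_ge, mk_glue Q w _ s hq, L.eq_base _ hl]
      rw [hn0]
      norm_num
    · obtain ⟨s, hs, -, he⟩ := Hh_gt L Q r hw p h
      rw [he]
      exact ih _ (by have := L.len_R w s hs; omega) _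

/-- The projection to `P`. -/
def prP : U S Q → P := Quotient.lift (fun a : S.Ω × P => a.2) (by
  rintro ⟨w, p⟩ ⟨w', p'⟩ ⟨h1, -⟩
  exact h1.symm)

theorem continuous_prP : Continuous (prP (S := S) Q) :=
  (U.isQuotientMap S Q).continuous_iff.2 continuous_snd

include L r in
theorem contractible_U [ContractibleSpace P] : ContractibleSpace (U S Q) := by
  rw [contractible_iff_id_nullhomotopic]
  have hι : Continuous fun p : P => U.mk S Q (L.base, p) :=
    (U.isQuotientMap S Q).continuous.comp (Continuous.prodMk_right _)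
  let ι : C(P, U S Q) := ⟨_, hι⟩
  let e : C(U S Q, U S Q) := ⟨fun x => Hu L Q r (x, 1),
    (continuous_Hu L Q r).comp (continuous_id.prodMk continuous_const)⟩
  let ρ : C(U S Q, P) := ⟨fun x => prP Q (Hu L Q r (x, 1)),
    (continuous_prP Q).comp ((continuous_Hu L Q r).comp (continuous_id.prodMk continuous_const))⟩
  have he : e = ι.comp ρ := by
    ext x
    induction x using Quotient.inductionOn with
    | _ a =>
      obtain ⟨w, p⟩ := a
      obtain ⟨q, hq⟩ := Hh_end L Q r _ w rfl p
      show Hh L Q r w p 1 = U.mk S Q (L.base, prP Q (Hh L Q r w p 1))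
      rw [hq]
      rfl
  have h1 : (ContinuousMap.id (U S Q)).Homotopic e := by
    refine ⟨⟨⟨fun a => Hu L Q r (a.2, (a.1 : ℝ)), ?_⟩, ?_, ?_⟩⟩
    · exact (continuous_Hu L Q r).comp
        (continuous_snd.prodMk (continuous_subtype_val.comp continuous_fst))
    · intro x
      induction x using Quotient.inductionOn with
      | _ a =>
        obtain ⟨w, p⟩ := a
        exact Hh_start L Q r w p
    · intro x
      rfl
  have h2 : (ContinuousMap.id P).Nullhomotopic := id_nullhomotopic P
  obtain ⟨p0, hp0⟩ := h2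
  refine ⟨U.mk S Q (L.base, p0), h1.trans ?_⟩
  rw [he]
  have h3 : (ι.comp ((ContinuousMap.id P).comp ρ)).Homotopic
      (ι.comp ((ContinuousMap.const P p0).comp ρ)) :=
    ContinuousMap.Homotopic.comp (ContinuousMap.Homotopic.refl ι)
      (ContinuousMap.Homotopic.comp hp0 (ContinuousMap.Homotopic.refl ρ))
  exact h3

end ctr

theorem CTR : Stmt_CTR := by
  intro F _ _ adj S L P _ Q r _
  exact contractible_U L Q r

end TC.Asp
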