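import Mathlib

/-!
# Block ASP of MP_bc2780_gt: chamber systems, mirrored spaces and their developments

See `ASP.md` in this folder.
-/

set_option autoImplicit false

open scoped symmDiff
open Topology

noncomputable section

namespace TC.Asp

/-- The elements of `A` are pairwise adjacent. -/
def Clq {F : Type} (adj : F → F → Prop) (A : Finset F) : Prop :=
  ∀ s ∈ A, ∀ t ∈ A, s ≠ t → adj s t

/-- A chamber system: a set `Ω` of chambers and, for every clique `A`, an operation `R A` (the
product of the commuting reflections in the mirrors `s ∈ A`). -/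
structure CS (F : Type) [DecidableEq F] (adj : F → F → Prop) where
  Ω : Type
  R : Finset F → Ω → Ω
  R_empty : ∀ w, R ∅ w = w
  R_R : ∀ A B w, Clq adj (A ∪ B) → R A (R B w) = R (A ∆ B) w

/-- A length function on a chamber system, `D w` = set of the mirrors across which the length of
`w` decreases. -/
structure Len {F : Type} [DecidableEq F] {adj : F → F → Prop} (S : CS F adj) where
  len : S.Ω → ℕ
  D : S.Ω → Finset F
  base : S.Ω
  D_clq : ∀ w, Clq adj (D w)
  len_base : len base = 0
  eq_base : ∀ w, len w = 0 → w = base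
  D_nonempty : ∀ w, len w ≠ 0 → (D w).Nonempty
  len_R : ∀ w, ∀ s ∈ D w, len (S.R {s} w) + 1 = len w
  mem_or : ∀ w s, s ∈ D w ∨ s ∈ D (S.R {s} w)
  mem_R : ∀ w, ∀ s ∈ D w, ∀ t ∈ D w, s ≠ t → t ∈ D (S.R {s} w)

/-- The chambers carry the discrete topology. -/
instance {F : Type} [DecidableEq F] {adj : F → F → Prop} (S : CS F adj) :
    TopologicalSpace S.Ω := ⊥

instance {F : Type} [DecidableEq F] {adj : F → F → Prop} (S : CS F adj) :
    DiscreteTopology S.Ω := ⟨rfl⟩

/-- A mirrored space: closed subsets `fac s` of `P`; facets with a common point are adjacent. -/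
structure Mir (F : Type) (adj : F → F → Prop) (P : Type) [TopologicalSpace P] where
  fac : F → Set P
  closed : ∀ s, IsClosed (fac s)
  adj_of_mem : ∀ s t p, p ∈ fac s → p ∈ fac t → s ≠ t → adj s t

section U

variable {F : Type} [Fintype F] [DecidableEq F] {adj : F → F → Prop} {P : Type}
  [TopologicalSpace P]

open Classical in
/-- The mirrors which contain the point `p`. -/
def Mir.T (Q : Mir F adj P) (p : P) : Finset F := Finset.univ.filter fun s => p ∈ Q.fac s

omit [DecidableEq F] in
theorem Mir.mem_T (Q : Mir F adj P) (p : P) (s : F) : s ∈ Q.T p ↔ p ∈ Q.fac s := by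
  simp [Mir.T]

omit [DecidableEq F] in
theorem Mir.T_clq (Q : Mir F adj P) (p : P) : Clq adj (Q.T p) := fun s hs t ht hst =>
  Q.adj_of_mem s t p ((Q.mem_T p s).1 hs) ((Q.mem_T p t).1 ht) hst

omit [Fintype F] [DecidableEq F] in
theorem Clq.mono {A B : Finset F} (h : Clq adj B) (hAB : A ⊆ B) : Clq adj A :=
  fun s hs t ht hst => h s (hAB hs) t (hAB ht) hst

/-- The gluing relation on `Ω × P`. -/
def urel (S : CS F adj) (Q : Mir F adj P) (a b : S.Ω × P) : Prop :=
  b.2 = a.2 ∧ ∃ A ⊆ Q.T a.2, b.1 = S.R A a.1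

theorem urel_equiv (S : CS F adj) (Q : Mir F adj P) : Equivalence (urel S Q) where
  refl a := ⟨rfl, ∅, Finset.empty_subset _, (S.R_empty _).symm⟩
  symm := by
    rintro ⟨w, p⟩ ⟨w', p'⟩ ⟨h1, A, hA, h2⟩
    dsimp only at h1 h2 hA
    subst h1 h2
    refine ⟨rfl, A, hA, ?_⟩
    dsimp only
    rw [S.R_R _ _ _ ((Q.T_clq p').mono (by simpa using hA)), symmDiff_self]
    exact (S.R_empty w).symm
  trans := by
    rintro ⟨w, p⟩ ⟨w', p'⟩ ⟨w'', p''⟩ ⟨h1, A, hA, h2⟩ ⟨h3, B, hB, h4⟩
    dsimp only at h1 h2 hA h3 h4 hB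
    subst h1 h3 h2 h4
    refine ⟨rfl, B ∆ A, ?_, ?_⟩
    · intro s hs
      rw [Finset.mem_symmDiff] at hs
      rcases hs with h | h
      · exact hB h.1
      · exact hA h.1
    · dsimp only
      rw [S.R_R]
      exact (Q.T_clq p'').mono (Finset.union_subset hB hA)

/-- The space obtained from `Ω × P` by gluing the chambers `w` and `R {s} w` along the mirror `s`. -/
def U (S : CS F adj) (Q : Mir F adj P) : Type :=
  Quotient (⟨urel S Q, urel_equiv S Q⟩ : Setoid (S.Ω × P))

instance (S : CS F adj) (Q : Mir F adj P) : TopologicalSpace (U S Q) :=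
  inferInstanceAs (TopologicalSpace (Quotient (⟨urel S Q, urel_equiv S Q⟩ : Setoid (S.Ω × P))))

/-- The point `p` of the chamber `w`. -/
def U.mk (S : CS F adj) (Q : Mir F adj P) (a : S.Ω × P) : U S Q := Quotient.mk _ a

theorem U.isQuotientMap (S : CS F adj) (Q : Mir F adj P) : IsQuotientMap (U.mk S Q) :=
  isQuotientMap_quotient_mk'

theorem U.mk_eq (S : CS F adj) (Q : Mir F adj P) {a b : S.Ω × P} :
    U.mk S Q a = U.mk S Q b ↔ urel S Q a b :=
  ⟨fun h => Quotient.exact h, fun h => Quotient.sound h⟩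

/-- A map of chamber systems. -/
structure Hom (S S' : CS F adj) where
  toFun : S.Ω → S'.Ω
  map_R : ∀ A w, Clq adj A → toFun (S.R A w) = S'.R A (toFun w)

/-- The map of spaces induced by a map of chamber systems. -/
def U.map {S S' : CS F adj} (f : Hom S S') (Q : Mir F adj P) : U S Q → U S' Q :=
  Quotient.map' (fun a => (f.toFun a.1, a.2)) (by
    rintro ⟨w, p⟩ ⟨w', p'⟩ ⟨h1, A, hA, h2⟩
    dsimp only at h1 h2 hA
    subst h1 h2
    exact ⟨rfl, A, hA, f.map_R A w ((Q.T_clq p').mono hA)⟩)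

theorem U.map_mk {S S' : CS F adj} (f : Hom S S') (Q : Mir F adj P) (w : S.Ω) (p : P) :
    U.map f Q (U.mk S Q (w, p)) = U.mk S' Q (f.toFun w, p) := rfl

/-- Retractions of `P` onto the unions of the facets of the nonempty cliques. -/
structure Ret (Q : Mir F adj P) where
  h : Finset F → P → ℝ → P
  cont : ∀ σ, Clq adj σ → σ.Nonempty → Continuous fun a : P × ℝ => h σ a.1 a.2
  zero : ∀ σ p, Clq adj σ → σ.Nonempty → h σ p 0 = p
  one : ∀ σ p, Clq adj σ → σ.Nonempty → ∃ s ∈ σ, h σ p 1 ∈ Q.fac s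
  fix : ∀ σ p u, Clq adj σ → σ.Nonempty → (∃ s ∈ σ, p ∈ Q.fac s) → h σ p u = p

end U

section color

variable {F : Type} [DecidableEq F] (adj : F → F → Prop) {C : Type} [DecidableEq C]

/-- The element `∑_{s ∈ A} e_{c s}` of `(ℤ/2)^C`. -/
def esum (c : F → C) (A : Finset F) : C → ZMod 2 := fun i => ∑ s ∈ A, if c s = i then 1 else 0

theorem esum_symmDiff (c : F → C) (A B : Finset F) : esum c (A ∆ B) = esum c A + esum c B := by
  funext i
  have h2 : ∀ x : ZMod 2, x + x = 0 := by decide
  have h1 : esum c (A ∆ B) i = (∑ s ∈ A \ B, if c s = i then (1 : ZMod 2) else 0)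
      + ∑ s ∈ B \ A, if c s = i then (1 : ZMod 2) else 0 :=
    Finset.sum_union (disjoint_sdiff_sdiff)
  have hA : esum c A i = _ := (Finset.sum_inter_add_sum_sdiff A B _).symm
  have hB : esum c B i = _ := (Finset.sum_inter_add_sum_sdiff B A _).symm
  rw [Pi.add_apply, h1, hA, hB, Finset.inter_comm B A]
  have h3 := h2 (∑ s ∈ A ∩ B, if c s = i then (1 : ZMod 2) else 0)
  linear_combination -h3

/-- The chamber system `(ℤ/2)^C`, the mirror `s` acting by the translation by `e_{c s}`. -/
def ZCS (c : F → C) : CS F adj where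
  Ω := C → ZMod 2
  R A g := g + esum c A
  R_empty g := by
    funext i
    simp [esum]
  R_R A B g _ := by
    rw [esum_symmDiff, add_assoc, add_comm (esum c A)]

end color

end TC.Asp
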