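import Pool.Agent.TC.Asp.Stmts

/-!
# FUN: the hypersurface `Mh` is glued from `2^8` copies of the polytope
-/

set_option autoImplicit false

open scoped symmDiff
open Topology

noncomputable section

namespace TC.Asp

namespace Fun

/-! ## Points of the circle -/

/-- The point of the circle with real part `y` and imaginary part of sign `(-1)^s`. -/
def cp (s : ZMod 2) (y : ℝ) : Circle := Circle.exp (sg s * Real.arccos y)

theorem cp_re (s : ZMod 2) {y : ℝ} (h1 : -1 ≤ y) (h2 : y ≤ 1) : ((cp s y : Circle) : ℂ).re = y := by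
  unfold cp
  rw [Circle.coe_exp, Complex.exp_ofReal_mul_I_re]
  rcases z2_cases s with rfl | rfl
  · simp [sg, Real.cos_arccos h1 h2]
  · simp [sg, Real.cos_arccos h1 h2]

theorem cp_im (s : ZMod 2) (y : ℝ) :
    ((cp s y : Circle) : ℂ).im = sg s * Real.sqrt (1 - y ^ 2) := by
  unfold cp
  rw [Circle.coe_exp, Complex.exp_ofReal_mul_I_im]
  rcases z2_cases s with rfl | rfl
  · simp [sg, Real.sin_arccos]
  · simp [sg, Real.sin_arccos]

theorem continuous_cp (s : ZMod 2) : Continuous (cp s) := by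
  unfold cp
  exact Circle.exp.continuous.comp (continuous_const.mul Real.continuous_arccos)

/-! ## The coordinates -/

/-- The denominator. -/
def dn (x : Fin 7 → ℝ) (j : Fin 8) : ℝ := lLo x j + lHi x j

/-- The function `a_j`. -/
def aa (x : Fin 7 → ℝ) (j : Fin 8) : ℝ := lLo x j / dn x j

theorem lo_nn (p : PP) (j : Fin 8) : 0 ≤ lLo p.1 j := by
  have := p.2 (j, false)
  simpa [lF] using this

theorem hi_nn (p : PP) (j : Fin 8) : 0 ≤ lHi p.1 j := by
  have := p.2 (j, true)
  simpa [lF] using this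

theorem dn_eq (x : Fin 7 → ℝ) (j : Fin 8) :
    dn x j = if j.1 < 6 then 1 else 4 * (x 4 + x 5) := by
  unfold dn
  fin_cases j <;> simp [lLo, lHi] <;> ring

theorem sum_pos (p : PP) : 1 ≤ 4 * (p.1 4 + p.1 5) := by
  have h1 := hi_nn p 6
  have h2 := hi_nn p 7
  simp [lHi] at h1 h2
  linarith

theorem dn_pos (p : PP) (j : Fin 8) : 0 < dn p.1 j := by
  rw [dn_eq]
  have := sum_pos p
  split_ifs <;> linarith

theorem aa_nn (p : PP) (j : Fin 8) : 0 ≤ aa p.1 j := div_nonneg (lo_nn p j) (dn_pos p j).le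

theorem aa_le (p : PP) (j : Fin 8) : aa p.1 j ≤ 1 := by
  unfold aa
  rw [div_le_one (dn_pos p j)]
  unfold dn
  linarith [hi_nn p j]

theorem aa_zero (p : PP) (j : Fin 8) : aa p.1 j = 0 ↔ lF (j, false) p.1 = 0 := by
  have h : lF (j, false) p.1 = lLo p.1 j := by simp [lF]
  rw [h]
  unfold aa
  rw [div_eq_zero_iff]
  have := (dn_pos p j).ne'
  tauto

theorem aa_one (p : PP) (j : Fin 8) : aa p.1 j = 1 ↔ lF (j, true) p.1 = 0 := by
  have h : lF (j, true) p.1 = lHi p.1 j := by simp [lF]
  rw [h]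
  unfold aa
  rw [div_eq_one_iff_eq (dn_pos p j).ne']
  unfold dn
  constructor <;> intro h <;> linarith

theorem continuous_aa (j : Fin 8) : Continuous fun p : PP => aa p.1 j := by
  have h1 : Continuous fun p : PP => lLo p.1 j := by
    have := (continuous_lF (j, false)).comp (continuous_subtype_val (p := fun x => ∀ s, 0 ≤ lF s x))
    refine this.congr fun p => ?_
    simp [lF]
  have h2 : Continuous fun p : PP => lHi p.1 j := by
    have := (continuous_lF (j, true)).comp (continuous_subtype_val (p := fun x => ∀ s, 0 ≤ lF s x))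
    refine this.congr fun p => ?_
    simp [lF]
  exact h1.div (h1.add h2) fun p => (dn_pos p j).ne'

theorem aa_lt (x : Fin 7 → ℝ) (j : Fin 8) (hj : j.1 < 6) : aa x j = lLo x j := by
  unfold aa
  rw [dn_eq, if_pos hj, div_one]

theorem aa6 (x : Fin 7 → ℝ) : aa x 6 = (1 + x 6) / (4 * (x 4 + x 5)) := by
  unfold aa
  rw [dn_eq, if_neg (by decide)]
  simp [lLo]

theorem aa7 (x : Fin 7 → ℝ) : aa x 7 = (1 - x 6) / (4 * (x 4 + x 5)) := by
  unfold aa
  rw [dn_eq, if_neg (by decide)]
  simp [lLo]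

theorem aa4 (x : Fin 7 → ℝ) : aa x 4 = x 4 := by
  rw [aa_lt _ _ (by decide)]
  simp [lLo]

theorem aa5 (x : Fin 7 → ℝ) : aa x 5 = x 5 := by
  rw [aa_lt _ _ (by decide)]
  simp [lLo]

theorem aa_level (p : PP) : (aa p.1 4 + aa p.1 5) * (aa p.1 6 + aa p.1 7) = 1 / 2 := by
  rw [aa6, aa7, aa4, aa5]
  have := sum_pos p
  have h : p.1 4 + p.1 5 ≠ 0 := by
    intro h
    rw [h] at this
    norm_num at this
  field_simp
  ring

theorem aa_inj {p q : PP} (h : ∀ j, aa p.1 j = aa q.1 j) : p = q := by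
  apply Subtype.ext
  have h0 := h 0
  have h1 := h 1
  have h2 := h 2
  have h3 := h 3
  have h4 := h 4
  have h5 := h 5
  have h6 := h 6
  rw [aa_lt _ _ (by decide), aa_lt _ _ (by decide)] at h0 h1 h2 h3
  rw [aa4, aa4] at h4
  rw [aa5, aa5] at h5
  rw [aa6, aa6, ← h4, ← h5] at h6
  have h7 := sum_pos p
  have h8 : 4 * (p.1 4 + p.1 5) ≠ 0 := by
    intro h
    rw [h] at h7
    norm_num at h7
  rw [div_left_inj' h8] at h6
  simp only [lLo] at h0 h1 h2 h3
  funext i
  fin_cases i
  · simpa using h0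
  · simpa using h1
  · simpa using h2
  · simpa using h3
  · simpa using h4
  · simpa using h5
  · show p.1 6 = q.1 6
    linarith

/-! ## The map -/

/-- The chamber system. -/
abbrev SS : CS Fc adjF := ZCS adjF (Prod.fst : Fc → Fin 8)

/-- The map on `(ℤ/2)^8 × P`. -/
def phi (a : SS.Ω × PP) : Mh :=
  ⟨fun j => cp (a.1 j) (1 - 2 * aa a.2.1 j), by
    have h1 : ∀ j, ((cp (a.1 j) (1 - 2 * aa a.2.1 j) : Circle) : ℂ).re = 1 - 2 * aa a.2.1 j := by
      intro j
      exact cp_re _ (by linarith [aa_le a.2 j]) (by linarith [aa_nn a.2 j])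
    unfold levelF
    rw [h1, h1, h1, h1]
    linear_combination 4 * aa_level a.2⟩

theorem phi_re (a : SS.Ω × PP) (j : Fin 8) :
    (((phi a).1 j : Circle) : ℂ).re = 1 - 2 * aa a.2.1 j :=
  cp_re _ (by linarith [aa_le a.2 j]) (by linarith [aa_nn a.2 j])

theorem phi_im (a : SS.Ω × PP) (j : Fin 8) :
    (((phi a).1 j : Circle) : ℂ).im =
      sg (a.1 j) * Real.sqrt (1 - (1 - 2 * aa a.2.1 j) ^ 2) := cp_im _ _

theorem sqrt_zero_iff (p : PP) (j : Fin 8) :
    Real.sqrt (1 - (1 - 2 * aa p.1 j) ^ 2) = 0 ↔ lF (j, false) p.1 = 0 ∨ lF (j, true) p.1 = 0 := by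
  rw [← aa_zero, ← aa_one, Real.sqrt_eq_zero (by nlinarith [aa_nn p j, aa_le p j])]
  constructor
  · intro h
    have h1 : aa p.1 j * (1 - aa p.1 j) = 0 := by nlinarith
    rcases mul_eq_zero.1 h1 with h2 | h2
    · exact Or.inl h2
    · exact Or.inr (by linarith)
  · rintro (h | h) <;> rw [h] <;> norm_num

theorem continuous_phi : Continuous phi := by
  refine Continuous.subtype_mk ?_ _
  rw [continuous_prod_of_discrete_left]
  intro g
  refine continuous_pi fun j => ?_
  exact (continuous_cp (g j)).comp (continuous_const.sub (continuous_const.mul (continuous_aa j)))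

/-- The sum over the facets of `A` of the colour `j`. -/
theorem esum_two (A : Finset Fc) (j : Fin 8) :
    esum (Prod.fst : Fc → Fin 8) A j =
      (if (j, true) ∈ A then 1 else 0) + (if (j, false) ∈ A then 1 else 0) := by
  unfold esum
  have h : ∑ s ∈ A, (if s.1 = j then (1 : ZMod 2) else 0) =
      ∑ s : Fc, if s ∈ A then (if s.1 = j then (1 : ZMod 2) else 0) else 0 := by
    rw [Finset.sum_ite_mem, Finset.univ_inter]
  rw [h, Fintype.sum_prod_type, Finset.sum_eq_single j]
  · rw [Fintype.sum_bool]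
    simp
  · intro i _ hi
    apply Finset.sum_eq_zero
    intro b _
    rw [if_neg hi, ite_self]
  · intro h
    exact absurd (Finset.mem_univ j) h

theorem not_both (p : PP) (j : Fin 8) (h1 : lF (j, false) p.1 = 0) (h2 : lF (j, true) p.1 = 0) :
    False := by
  rw [← aa_zero] at h1
  rw [← aa_one] at h2
  rw [h1] at h2
  exact zero_ne_one h2

theorem z2_ne {a b : ZMod 2} (h : a ≠ b) : b = a + 1 := by
  revert a b
  decide

theorem sg_ne {a b : ZMod 2} (h : a ≠ b) {r : ℝ} (hr : sg a * r = sg b * r) : r = 0 := by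
  rw [z2_ne h, sg_add] at hr
  have h1 : sg 1 = -1 := by simp [sg]
  have h2 := sg_mul_self a
  rw [h1] at hr
  have h3 : sg a * r = 0 := by linarith
  rcases mul_eq_zero.1 h3 with h4 | h4
  · rw [h4] at h2
    norm_num at h2
  · exact h4

theorem phi_eq_iff (a b : SS.Ω × PP) : phi a = phi b ↔ urel SS QQ a b := by
  obtain ⟨g, p⟩ := a
  obtain ⟨g', q⟩ := b
  constructor
  · intro h
    have hre : ∀ j, aa p.1 j = aa q.1 j := by
      intro j
      have h1 := phi_re (g, p) j
      rw [h, phi_re] at h1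
      dsimp only at h1
      linarith
    have hpq := aa_inj hre
    subst hpq
    refine ⟨rfl, (QQ.T p).filter (fun s => g s.1 ≠ g' s.1), Finset.filter_subset _ _, ?_⟩
    refine funext (α := Fin 8) (β := fun _ => ZMod 2) fun j => ?_
    show g' j = g j + esum (Prod.fst : Fc → Fin 8)
      ((QQ.T p).filter (fun s => g s.1 ≠ g' s.1)) j
    rw [esum_two]
    have him : sg (g j) * Real.sqrt (1 - (1 - 2 * aa p.1 j) ^ 2) =
        sg (g' j) * Real.sqrt (1 - (1 - 2 * aa p.1 j) ^ 2) := by
      have h1 := phi_im (g, p) j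
      rw [h, phi_im] at h1
      exact h1.symm
    by_cases hj : g j = g' j
    · simp [hj]
    · have h0 := sg_ne hj him
      rw [sqrt_zero_iff] at h0
      rw [z2_ne hj]
      congr 1
      have hm : ∀ b, (j, b) ∈ (QQ.T p).filter (fun s => g s.1 ≠ g' s.1) ↔ lF (j, b) p.1 = 0 := by
        intro b
        rw [Finset.mem_filter, Mir.mem_T, mem_QQ]
        exact ⟨fun h => h.1, fun h => ⟨h, hj⟩⟩
      rw [if_congr (hm true) rfl rfl, if_congr (hm false) rfl rfl]
      rcases h0 with h0 | h0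
      · rw [if_pos h0, if_neg (fun h1 => not_both p j h0 h1), zero_add]
      · rw [if_pos h0, if_neg (fun h1 => not_both p j h1 h0), add_zero]
  · rintro ⟨h1, A, hA, h2⟩
    dsimp only at h1 hA h2
    subst h1
    apply Subtype.ext
    funext j
    apply circle_ext
    · rw [phi_re, phi_re]
    · rw [phi_im, phi_im]
      dsimp only
      have h3 : g' j = g j + esum (Prod.fst : Fc → Fin 8) A j := by
        rw [h2]
        rfl
      by_cases h0 : esum (Prod.fst : Fc → Fin 8) A j = 0
      · rw [h3, h0, add_zero]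
      · have h4 : (j, false) ∈ A ∨ (j, true) ∈ A := by
          by_contra hn
          rw [not_or] at hn
          apply h0
          rw [esum_two, if_neg hn.1, if_neg hn.2, add_zero]
        have h5 : Real.sqrt (1 - (1 - 2 * aa q.1 j) ^ 2) = 0 := by
          rw [sqrt_zero_iff]
          rcases h4 with h4 | h4
          · exact Or.inl ((mem_QQ _ _).1 ((Mir.mem_T _ _ _).1 (hA h4)))
          · exact Or.inr ((mem_QQ _ _).1 ((Mir.mem_T _ _ _).1 (hA h4)))
        rw [h5, mul_zero, mul_zero]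

theorem circle_abs (z : Circle) : (z : ℂ).re ^ 2 + (z : ℂ).im ^ 2 = 1 := by
  have h := Circle.normSq_coe z
  rw [Complex.normSq_apply] at h
  nlinarith

theorem phi_surj : Function.Surjective phi := by
  rintro ⟨z, hz⟩
  have hb : ∀ j, -1 ≤ (z j : ℂ).re ∧ (z j : ℂ).re ≤ 1 := by
    intro j
    have := circle_abs (z j)
    constructor <;> nlinarith [sq_nonneg (z j : ℂ).im]
  -- the coordinates
  obtain ⟨a, ha⟩ : ∃ a : Fin 8 → ℝ, ∀ j, a j = (1 - (z j : ℂ).re) / 2 := ⟨_, fun _ => rfl⟩
  have ha0 : ∀ j, 0 ≤ a j := fun j => by rw [ha]; linarith [(hb j).2]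
  have ha1 : ∀ j, a j ≤ 1 := fun j => by rw [ha]; linarith [(hb j).1]
  have hre : ∀ j, (z j : ℂ).re = 1 - 2 * a j := fun j => by rw [ha]; ring
  have hl : (a 4 + a 5) * (a 6 + a 7) = 1 / 2 := by
    unfold levelF at hz
    rw [hre, hre, hre, hre] at hz
    linear_combination hz / 4
  have hpos : 0 < a 4 + a 5 := by
    have h1 : 0 ≤ a 4 + a 5 := add_nonneg (ha0 4) (ha0 5)
    rcases h1.lt_or_eq with h2 | h2
    · exact h2
    · rw [← h2] at hl
      norm_num at hl
  let x : Fin 7 → ℝ := ![a 0, a 1, a 2, a 3, a 4, a 5, 4 * (a 4 + a 5) * a 6 - 1]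
  have hx4 : x 4 = a 4 := rfl
  have hx5 : x 5 = a 5 := rfl
  have hx6 : x 6 = 4 * (a 4 + a 5) * a 6 - 1 := rfl
  have hlo : ∀ j, lLo x j = a j * (if j.1 < 6 then 1 else 4 * (a 4 + a 5)) := by
    intro j
    fin_cases j
    · simp [lLo, x]
    · simp [lLo, x]
    · simp [lLo, x]
    · simp [lLo, x]
    · simp [lLo, x]
    · simp [lLo, x]
    · simp [lLo, x]
      ring
    · simp [lLo, x]
      linear_combination (-4) * hl
  have hdn : ∀ j, dn x j = if j.1 < 6 then 1 else 4 * (a 4 + a 5) := by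
    intro j
    rw [dn_eq, hx4, hx5]
  have hdp : ∀ j, 0 < dn x j := by
    intro j
    rw [hdn]
    split_ifs
    · exact one_pos
    · linarith
  have hlo' : ∀ j, lLo x j = a j * dn x j := fun j => by rw [hlo, hdn]
  have hhi : ∀ j, lHi x j = (1 - a j) * dn x j := by
    intro j
    have h1 : lHi x j = dn x j - lLo x j := by unfold dn; ring
    rw [h1, hlo']
    ring
  let p : PP := ⟨x, by
    rintro ⟨j, b⟩
    cases b
    · have h1 : lF (j, false) x = lLo x j := by simp [lF]
      rw [h1, hlo']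
      exact mul_nonneg (ha0 j) (hdp j).le
    · have h1 : lF (j, true) x = lHi x j := by simp [lF]
      rw [h1, hhi]
      exact mul_nonneg (by linarith [ha1 j]) (hdp j).le⟩
  have haa : ∀ j, aa p.1 j = a j := by
    intro j
    show lLo x j / dn x j = a j
    rw [hlo', mul_div_assoc, div_self (hdp j).ne', mul_one]
  classical
  refine ⟨(fun j => if 0 ≤ (z j : ℂ).im then 0 else 1, p), ?_⟩
  apply Subtype.ext
  funext j
  apply circle_ext
  · rw [phi_re]
    dsimp only
    rw [haa, hre]
  · rw [phi_im]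
    dsimp only
    rw [haa, ← hre]
    have h1 : 1 - (z j : ℂ).re ^ 2 = (z j : ℂ).im ^ 2 := by
      have := circle_abs (z j)
      linarith
    rw [h1, Real.sqrt_sq_eq_abs]
    split_ifs with h2
    · rw [sg_zero, one_mul, abs_of_nonneg h2]
    · have h3 : sg 1 = -1 := by simp [sg]
      rw [h3, abs_of_neg (not_le.1 h2)]
      ring

end Fun

/-- FUN. -/
theorem FUN : Stmt_FUN := by
  intro hc
  have hfin : Finite Fun.SS.Ω := inferInstanceAs (Finite (Fin 8 → ZMod 2))
  have hcu : CompactSpace (U Fun.SS QQ) := by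
    have h1 : CompactSpace (Fun.SS.Ω × PP) := inferInstance
    exact inferInstanceAs (CompactSpace (Quotient _))
  have ht : T2Space Mh := inferInstanceAs (T2Space {z : Fin 8 → Circle // levelF z = 2})
  let F : U Fun.SS QQ → Mh := Quotient.lift Fun.phi fun a b h => (Fun.phi_eq_iff a b).2 h
  have hF : ∀ a, F (U.mk Fun.SS QQ a) = Fun.phi a := fun a => rfl
  have hcont : Continuous F := (U.isQuotientMap Fun.SS QQ).continuous_iff.2 Fun.continuous_phi
  have hinj : Function.Injective F := by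
    intro u v
    induction u using Quotient.inductionOn with
    | _ a =>
      induction v using Quotient.inductionOn with
      | _ b =>
        intro h
        exact Quotient.sound ((Fun.phi_eq_iff a b).1 h)
  have hsurj : Function.Surjective F := by
    intro z
    obtain ⟨a, rfl⟩ := Fun.phi_surj z
    exact ⟨U.mk Fun.SS QQ a, rfl⟩
  exact ⟨Continuous.homeoOfEquivCompactToT2 (f := Equiv.ofBijective F ⟨hinj, hsurj⟩) hcont⟩

end TC.Asp
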