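import Pool.Agent.TC.Asp.Stmts

/-!
# The numbers game
-/

set_option autoImplicit false

open scoped symmDiff

noncomputable section

namespace TC.Asp

section game

variable {F : Type} [DecidableEq F] (adj : F → F → Prop)

open Classical in
/-- The product of the commuting reflections in the elements of `A`. -/
def gx (A : Finset F) (x : F → ℤ) : F → ℤ := fun t =>
  if t ∈ A then -x t else x t + 2 * ∑ s ∈ A, if adj s t then 0 else x s

theorem gx_mem {A : Finset F} {x : F → ℤ} {t : F} (h : t ∈ A) : gx adj A x t = -x t := by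
  simp [gx, h]

open Classical in
theorem gx_not_mem {A : Finset F} {x : F → ℤ} {t : F} (h : t ∉ A) :
    gx adj A x t = x t + 2 * ∑ s ∈ A, if adj s t then 0 else x s := by
  rw [gx, if_neg h]

theorem gx_not_mem' {A : Finset F} {x : F → ℤ} {t : F} (h : t ∉ A) (h' : ∀ s ∈ A, adj s t) :
    gx adj A x t = x t := by
  classical
  rw [gx_not_mem adj h, Finset.sum_eq_zero (fun s hs => by rw [if_pos (h' s hs)])]
  simp

theorem gx_empty (x : F → ℤ) : gx adj ∅ x = x := by
  funext t
  simp [gx]

theorem gx_gx {A B : Finset F} (hAB : Clq adj (A ∪ B)) (x : F → ℤ) :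
    gx adj A (gx adj B x) = gx adj (A ∆ B) x := by
  classical
  have key : ∀ s ∈ A ∪ B, ∀ t ∈ A ∪ B, s ≠ t → adj s t := hAB
  funext t
  by_cases hA : t ∈ A <;> by_cases hB : t ∈ B
  · rw [gx_mem adj hA, gx_mem adj hB, neg_neg, gx_not_mem']
    · simp [Finset.mem_symmDiff, hA, hB]
    · intro s hs
      rw [Finset.mem_symmDiff] at hs
      refine key s ?_ t (Finset.mem_union_left _ hA) ?_
      · rw [Finset.mem_union]; tauto
      · rintro rfl; tauto
  · rw [gx_mem adj hA, gx_not_mem' adj hB, gx_mem]
    · simp [Finset.mem_symmDiff, hA, hB]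
    · intro s hs
      refine key s (Finset.mem_union_right _ hs) t (Finset.mem_union_left _ hA) ?_
      rintro rfl; exact hB hs
  · rw [gx_not_mem' adj hA, gx_mem adj hB, gx_mem]
    · simp [Finset.mem_symmDiff, hA, hB]
    · intro s hs
      refine key s (Finset.mem_union_left _ hs) t (Finset.mem_union_right _ hB) ?_
      rintro rfl; exact hA hs
  · rw [gx_not_mem adj hA, gx_not_mem adj hB, gx_not_mem]
    swap
    · simp [Finset.mem_symmDiff, hA, hB]
    have h1 : (∑ s ∈ A ∆ B, if adj s t then 0 else x s) =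
        (∑ s ∈ A \ B, if adj s t then 0 else x s) + ∑ s ∈ B \ A, if adj s t then 0 else x s :=
      Finset.sum_union disjoint_sdiff_sdiff
    have h2 : (∑ s ∈ A, if adj s t then 0 else gx adj B x s) =
        (∑ s ∈ A \ B, if adj s t then 0 else x s) - ∑ s ∈ A ∩ B, if adj s t then 0 else x s := by
      rw [← Finset.sum_inter_add_sum_sdiff A B]
      have e1 : (∑ s ∈ A ∩ B, if adj s t then 0 else gx adj B x s) =
          - ∑ s ∈ A ∩ B, if adj s t then 0 else x s := by
        rw [← Finset.sum_neg_distrib]
        refine Finset.sum_congr rfl fun s hs => ?_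
        rw [gx_mem adj (Finset.mem_inter.1 hs).2]
        split_ifs <;> simp
      have e2 : (∑ s ∈ A \ B, if adj s t then 0 else gx adj B x s) =
          ∑ s ∈ A \ B, if adj s t then 0 else x s := by
        refine Finset.sum_congr rfl fun s hs => ?_
        rw [Finset.mem_sdiff] at hs
        rw [gx_not_mem' adj hs.2]
        intro u hu
        refine key u (Finset.mem_union_right _ hu) s (Finset.mem_union_left _ hs.1) ?_
        rintro rfl; exact hs.2 hu
      rw [e1, e2]; ring
    have h3 : (∑ s ∈ B, if adj s t then 0 else x s) =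
        (∑ s ∈ A ∩ B, if adj s t then 0 else x s) + ∑ s ∈ B \ A, if adj s t then 0 else x s := by
      rw [← Finset.sum_inter_add_sum_sdiff B A, Finset.inter_comm B A]
    rw [h1, h2, h3]
    ring

variable {C : Type} [DecidableEq C] (c : F → C)

/-- The operation on states. -/
def gA (A : Finset F) (f : (F → ℤ) × (C → ZMod 2)) : (F → ℤ) × (C → ZMod 2) :=
  (gx adj A f.1, f.2 + esum c A)

omit [DecidableEq F] in
theorem esum_empty : esum c (∅ : Finset F) = 0 := by
  funext i
  simp [esum]

theorem gA_empty (f : (F → ℤ) × (C → ZMod 2)) : gA adj c ∅ f = f := by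
  simp [gA, gx_empty, esum_empty]

theorem gA_gA {A B : Finset F} (hAB : Clq adj (A ∪ B)) (f : (F → ℤ) × (C → ZMod 2)) :
    gA adj c A (gA adj c B f) = gA adj c (A ∆ B) f := by
  unfold gA
  dsimp only
  rw [gx_gx adj hAB, esum_symmDiff, add_assoc, add_comm (esum c B)]

omit [DecidableEq F] in
theorem clq_singleton (s : F) : Clq adj {s} := by
  intro a ha b hb hab
  rw [Finset.mem_singleton] at ha hb
  exact absurd (ha.trans hb.symm) hab

theorem gA_self (s : F) (f : (F → ℤ) × (C → ZMod 2)) : gA adj c {s} (gA adj c {s} f) = f := by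
  rw [gA_gA adj c (by simpa using clq_singleton adj s), symmDiff_self]
  exact gA_empty adj c f

theorem gA_s (s : F) (f : (F → ℤ) × (C → ZMod 2)) : (gA adj c {s} f).1 s = -f.1 s :=
  gx_mem adj (Finset.mem_singleton_self s)

theorem gA_adj {s t : F} (hst : s ≠ t) (h : adj s t) (f : (F → ℤ) × (C → ZMod 2)) :
    (gA adj c {s} f).1 t = f.1 t := by
  refine gx_not_mem' adj (by simpa using hst.symm) ?_
  intro u hu
  rw [Finset.mem_singleton] at hu
  rwa [hu]

theorem gA_nadj {s t : F} (hst : s ≠ t) (h : ¬ adj s t) (f : (F → ℤ) × (C → ZMod 2)) :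
    (gA adj c {s} f).1 t = f.1 t + 2 * f.1 s := by
  classical
  show gx adj {s} f.1 t = _
  rw [gx_not_mem adj (by simpa using hst.symm)]
  simp [h]

theorem gA_comm {s t : F} (hst : s ≠ t) (h : adj s t) (h' : adj t s)
    (f : (F → ℤ) × (C → ZMod 2)) :
    gA adj c {s} (gA adj c {t} f) = gA adj c {t} (gA adj c {s} f) := by
  have hc : Clq adj ({s} ∪ {t}) := by
    intro a ha b hb hab
    simp only [Finset.mem_union, Finset.mem_singleton] at ha hb
    rcases ha with rfl | rfl <;> rcases hb with rfl | rfl
    · exact absurd rfl hab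
    · exact h
    · exact h'
    · exact absurd rfl hab
  rw [gA_gA adj c hc, gA_gA adj c (by rwa [Finset.union_comm]), symmDiff_comm]

/-- The states reachable by `n` moves. -/
def Reach : ℕ → Set ((F → ℤ) × (C → ZMod 2))
  | 0 => {(fun _ => 1, 0)}
  | n + 1 => {f | ∃ g ∈ Reach n, ∃ s, 0 < g.1 s ∧ f = gA adj c {s} g}

theorem reach_inv (hsym : ∀ s t, adj s t → adj t s) :
    ∀ (n : ℕ) (f : (F → ℤ) × (C → ZMod 2)), f ∈ Reach adj c n →
      (∀ s, Odd (f.1 s)) ∧ ∀ s t, s ≠ t → ¬ adj s t → 0 < f.1 s + f.1 t := by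
  intro n
  induction n with
  | zero =>
    rintro f hf
    have : f = (fun _ => 1, 0) := hf
    subst this
    exact ⟨fun s => odd_one, fun s t _ _ => by norm_num⟩
  | succ n ih =>
    rintro f ⟨g, hg, u, hu, rfl⟩
    obtain ⟨h1, h2⟩ := ih g hg
    refine ⟨fun s => ?_, fun s t hst hn => ?_⟩
    · by_cases hs : s = u
      · subst hs
        rw [gA_s]
        exact (h1 s).neg
      · by_cases ha : adj u s
        · rw [gA_adj adj c (Ne.symm hs) ha]; exact h1 s
        · rw [gA_nadj adj c (Ne.symm hs) ha]
          exact (h1 s).add_even (even_two_mul _)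
    · have h3 := h2 s t hst hn
      by_cases hs : s = u
      · subst hs
        rw [gA_s, gA_nadj adj c hst hn]
        linarith
      · by_cases ht : t = u
        · subst ht
          rw [gA_s, gA_nadj adj c (Ne.symm hst) (fun h => hn (hsym _ _ h))]
          linarith
        · have e : ∀ v, v ≠ u → g.1 v ≤ (gA adj c {u} g).1 v := by
            intro v hv
            by_cases ha : adj u v
            · rw [gA_adj adj c (Ne.symm hv) ha]
            · rw [gA_nadj adj c (Ne.symm hv) ha]
              linarith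
          linarith [e s hs, e t ht]

theorem reach_down (hsym : ∀ s t, adj s t → adj t s) :
    ∀ (n : ℕ) (f : (F → ℤ) × (C → ZMod 2)) (s : F), f ∈ Reach adj c n → f.1 s < 0 →
      ∃ m, n = m + 1 ∧ gA adj c {s} f ∈ Reach adj c m := by
  intro n
  induction n with
  | zero =>
    rintro f s hf hs
    have : f = (fun _ => 1, 0) := hf
    subst this
    norm_num at hs
  | succ n ih =>
    intro f s hf hs
    refine ⟨n, rfl, ?_⟩
    have hinv := (reach_inv adj c hsym _ f hf).2
    obtain ⟨g, hg, t, ht, rfl⟩ := hf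
    by_cases hst : s = t
    · subst hst
      rwa [gA_self]
    · have ht' : (gA adj c {t} g).1 t < 0 := by rw [gA_s]; linarith
      have hadj : adj s t := by
        by_contra hn
        have := hinv s t hst hn
        linarith
      have hadj' := hsym _ _ hadj
      have hgs : g.1 s < 0 := by
        rw [gA_adj adj c (Ne.symm hst) hadj'] at hs
        exact hs
      obtain ⟨m, rfl, hm⟩ := ih g s hg hgs
      refine ⟨gA adj c {s} g, hm, t, ?_, ?_⟩
      · rw [gA_adj adj c hst hadj]; exact ht
      · rw [gA_comm adj c hst hadj hadj']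

theorem reach_unique (hsym : ∀ s t, adj s t → adj t s) :
    ∀ (n m : ℕ) (f : (F → ℤ) × (C → ZMod 2)), f ∈ Reach adj c n → f ∈ Reach adj c m → n = m := by
  intro n
  induction n with
  | zero =>
    intro m f h0 hm
    have : f = (fun _ => 1, 0) := h0
    subst this
    cases m with
    | zero => rfl
    | succ m =>
      obtain ⟨g, hg, t, ht, he⟩ := hm
      have : (gA adj c {t} g).1 t = 1 := by rw [← he]
      rw [gA_s] at this
      omega
  | succ n ih =>
    rintro m f ⟨g, hg, t, ht, rfl⟩ hm
    have ht' : (gA adj c {t} g).1 t < 0 := by rw [gA_s]; linarith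
    obtain ⟨k, rfl, hk⟩ := reach_down adj c hsym m _ t hm ht'
    rw [gA_self] at hk
    rw [ih k g hg hk]

theorem reach_closed (hsym : ∀ s t, adj s t → adj t s) (f : (F → ℤ) × (C → ZMod 2))
    (hf : ∃ n, f ∈ Reach adj c n) (s : F) : ∃ n, gA adj c {s} f ∈ Reach adj c n := by
  obtain ⟨n, hn⟩ := hf
  rcases lt_trichotomy (f.1 s) 0 with h | h | h
  · obtain ⟨m, -, hm⟩ := reach_down adj c hsym n f s hn h
    exact ⟨m, hm⟩
  · have := (reach_inv adj c hsym n f hn).1 s
    rw [h] at this
    exact absurd this (by decide)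
  · exact ⟨n + 1, f, hn, s, h, rfl⟩

theorem reach_closed' (hsym : ∀ s t, adj s t → adj t s) (f : (F → ℤ) × (C → ZMod 2))
    (hf : ∃ n, f ∈ Reach adj c n) (A : Finset F) (hA : Clq adj A) :
    ∃ n, gA adj c A f ∈ Reach adj c n := by
  induction A using Finset.induction_on with
  | empty => rwa [gA_empty]
  | insert s B hs ih =>
    have hB : Clq adj B := hA.mono (Finset.subset_insert _ _)
    have e : insert s B = ({s} : Finset F) ∆ B := by
      ext u
      simp only [Finset.mem_insert, Finset.mem_symmDiff, Finset.mem_singleton]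
      constructor
      · rintro (rfl | h)
        · exact Or.inl ⟨rfl, hs⟩
        · refine Or.inr ⟨h, ?_⟩
          rintro rfl; exact hs h
      · rintro (⟨h, -⟩ | ⟨h, -⟩)
        · exact Or.inl h
        · exact Or.inr h
    have e2 : Clq adj (({s} : Finset F) ∪ B) := by
      rwa [← Finset.insert_eq]
    rw [e, ← gA_gA adj c e2]
    exact reach_closed adj c hsym _ (ih hB) s

open Classical in
/-- The chamber system of the numbers game. -/
def gCS (hsym : ∀ s t, adj s t → adj t s) : CS F adj where
  Ω := {f : (F → ℤ) × (C → ZMod 2) // ∃ n, f ∈ Reach adj c n}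
  R A w := if hA : Clq adj A then ⟨gA adj c A w.1, reach_closed' adj c hsym w.1 w.2 A hA⟩ else w
  R_empty w := by
    have h : Clq adj (∅ : Finset F) := fun s hs => by simp at hs
    rw [dif_pos h]
    exact Subtype.ext (gA_empty adj c w.1)
  R_R A B w hAB := by
    have hA : Clq adj A := hAB.mono Finset.subset_union_left
    have hB : Clq adj B := hAB.mono Finset.subset_union_right
    have hC : Clq adj (A ∆ B) := hAB.mono (by
      intro s hs
      rw [Finset.mem_symmDiff] at hs
      rw [Finset.mem_union]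
      tauto)
    rw [dif_pos hA, dif_pos hB, dif_pos hC]
    exact Subtype.ext (gA_gA adj c hAB w.1)

open Classical in
theorem gCS_R (hsym : ∀ s t, adj s t → adj t s) {A : Finset F} (hA : Clq adj A)
    (w : (gCS adj c hsym).Ω) : ((gCS adj c hsym).R A w).1 = gA adj c A w.1 := by
  show (dite (Clq adj A) _ _ : {f : (F → ℤ) × (C → ZMod 2) // ∃ n, f ∈ Reach adj c n}).1 = _
  rw [dif_pos hA]

open Classical in
/-- The length function. -/
def gLen [Fintype F] (hsym : ∀ s t, adj s t → adj t s) : Len (gCS adj c hsym) where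
  len w := w.2.choose
  D w := Finset.univ.filter fun s => w.1.1 s < 0
  base := ⟨(fun _ => 1, 0), 0, rfl⟩
  D_clq w := by
    intro s hs t ht hst
    rw [Finset.mem_filter] at hs ht
    obtain ⟨n, hn⟩ := w.2
    by_contra h
    have := (reach_inv adj c hsym n w.1 hn).2 s t hst h
    linarith [hs.2, ht.2]
  len_base := by
    have h : ∃ n, ((fun _ => 1, 0) : (F → ℤ) × (C → ZMod 2)) ∈ Reach adj c n := ⟨0, rfl⟩
    exact reach_unique adj c hsym _ 0 _ h.choose_spec rfl
  eq_base w hw := by
    have h := w.2.choose_spec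
    rw [hw] at h
    exact Subtype.ext h
  D_nonempty w hw := by
    have h := w.2.choose_spec
    obtain ⟨m, hm⟩ := Nat.exists_eq_succ_of_ne_zero hw
    rw [hm] at h
    obtain ⟨g, hg, t, ht, he⟩ := h
    refine ⟨t, Finset.mem_filter.2 ⟨Finset.mem_univ _, ?_⟩⟩
    rw [he, gA_s]
    linarith
  len_R w s hs := by
    rw [Finset.mem_filter] at hs
    have h := w.2.choose_spec
    obtain ⟨m, hm, h'⟩ := reach_down adj c hsym _ w.1 s h hs.2
    have h2 := ((gCS adj c hsym).R {s} w).2.choose_spec
    have h4 : ((gCS adj c hsym).R {s} w).1 ∈ Reach adj c m := by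
      rw [gCS_R adj c hsym (clq_singleton adj s)]
      exact h'
    have h5 := reach_unique adj c hsym _ _ _ h2 h4
    rw [hm, h5]
  mem_or w s := by
    rw [Finset.mem_filter, Finset.mem_filter, gCS_R adj c hsym (clq_singleton adj s), gA_s]
    obtain ⟨n, hn⟩ := w.2
    rcases lt_trichotomy (w.1.1 s) 0 with h | h | h
    · exact Or.inl ⟨Finset.mem_univ _, h⟩
    · have := (reach_inv adj c hsym n w.1 hn).1 s
      rw [h] at this
      exact absurd this (by decide)
    · exact Or.inr ⟨Finset.mem_univ _, by linarith⟩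
  mem_R w s hs t ht hst := by
    rw [Finset.mem_filter] at hs ht ⊢
    rw [gCS_R adj c hsym (clq_singleton adj s)]
    obtain ⟨n, hn⟩ := w.2
    have hadj : adj s t := by
      by_contra h
      have := (reach_inv adj c hsym n w.1 hn).2 s t hst h
      linarith [hs.2, ht.2]
    rw [gA_adj adj c hst hadj]
    exact ht

/-- The map to `(ℤ/2)^C`. -/
def gHom (hsym : ∀ s t, adj s t → adj t s) : Hom (gCS adj c hsym) (ZCS adj c) where
  toFun w := w.1.2
  map_R A w hA := by
    show ((gCS adj c hsym).R A w).1.2 = _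
    rw [gCS_R adj c hsym hA]
    rfl

end game

theorem GAME : Stmt_GAME := by
  intro F _ _ adj hsym C _ _ c hc
  refine ⟨gCS adj c hsym, gLen adj c hsym, gHom adj c hsym, ?_⟩
  have key : ∀ T : Finset C, ∃ w : (gCS adj c hsym).Ω,
      (gHom adj c hsym).toFun w = fun i => if i ∈ T then 1 else 0 := by
    intro T
    induction T using Finset.induction_on with
    | empty => exact ⟨(gLen adj c hsym).base, by simp; rfl⟩
    | insert j T hj ih =>
      obtain ⟨w, hw⟩ := ih
      obtain ⟨s, rfl⟩ := hc j
      refine ⟨(gCS adj c hsym).R {s} w, ?_⟩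
      rw [(gHom adj c hsym).map_R _ _ (clq_singleton adj s), hw]
      funext i
      show (if i ∈ T then (1 : ZMod 2) else 0) + esum c {s} i = _
      simp only [esum, Finset.sum_singleton, Finset.mem_insert]
      by_cases hi : c s = i
      · subst hi
        simp [hj]
      · have : i ≠ c s := Ne.symm hi
        simp [hi, this]
  intro g
  obtain ⟨w, hw⟩ := key (Finset.univ.filter fun i => g i = 1)
  refine ⟨w, ?_⟩
  rw [hw]
  funext i
  simp only [Finset.mem_filter, Finset.mem_univ, true_and]
  have h2 : ∀ a : ZMod 2, (if a = 1 then (1 : ZMod 2) else 0) = a := by decide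
  exact h2 (g i)

end TC.Asp
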