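import Pool.Agent.TC.Asp.Stmts

/-!
# Block ASP of MP_bc2780_gt: the assembly (module MAIN)

The manifold `Mq` is aspherical and connected.
-/

set_option autoImplicit false

open scoped symmDiff
open Topology

noncomputable section

namespace TC.Asp

theorem adjF_symm : ∀ s t : Fc, adjF s t → adjF t s := by
  unfold adjF
  decide

theorem fst_ne_of_adjF : ∀ s t : Fc, adjF s t → s.1 ≠ t.1 := by
  intro s t h he
  simp [adjF, nadjB, he] at h

/-- The group generated by the reflections in the mirrors of a clique acts freely on `(ℤ/2)^8`. -/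
theorem free_ZCS (A : Finset Fc) (g : Fin 8 → ZMod 2) (hA : Clq adjF A)
    (h : (ZCS adjF (Prod.fst : Fc → Fin 8)).R A g = g) : A = ∅ := by
  by_contra hne
  obtain ⟨s, hs⟩ := Finset.nonempty_iff_ne_empty.2 hne
  have h0 : g + esum (Prod.fst : Fc → Fin 8) A = g := h
  have h1 : esum (Prod.fst : Fc → Fin 8) A = 0 := by
    simpa using h0
  have h2 : esum (Prod.fst : Fc → Fin 8) A s.1 = 1 := by
    unfold esum
    rw [Finset.sum_eq_single s]
    · simp
    · intro t ht hts
      rw [if_neg (fst_ne_of_adjF t s (hA t ht s hs hts))]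
    · intro h
      exact absurd hs h
  rw [h1] at h2
  exact zero_ne_one h2

theorem U.map_surjective {F : Type} [Fintype F] [DecidableEq F] {adj : F → F → Prop}
    {S S' : CS F adj} (f : Hom S S') {P : Type} [TopologicalSpace P] (Q : Mir F adj P)
    (hf : Function.Surjective f.toFun) : Function.Surjective (U.map f Q) := by
  intro y
  induction y using Quotient.inductionOn with
  | h a =>
    obtain ⟨w, hw⟩ := hf a.1
    refine ⟨U.mk S Q (w, a.2), ?_⟩
    rw [U.map_mk, hw]
    rfl

theorem MAIN : Stmt_MAIN := by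
  intro hGAME hCTR hCOV hPOL hCMP hTAB hFUN hTOP
  obtain ⟨S, L, f, hf⟩ := hGAME Fc adjF adjF_symm (Fin 8) Prod.fst Prod.fst_surjective
  obtain ⟨hz, hx, hc⟩ := hTAB
  obtain ⟨⟨ret⟩, hP⟩ := hPOL 7 Fc adjF lF aff_lF QQ mem_QQ hz
  have hPP : ContractibleSpace PP := hP hx
  have hU : ContractibleSpace (U S QQ) := hCTR Fc adjF S L PP QQ ret hPP
  obtain ⟨e⟩ := hFUN hc
  have hcov : IsCoveringMap (U.map f QQ) :=
    hCOV Fc adjF S (ZCS adjF (Prod.fst : Fc → Fin 8)) f PP QQ fun A g hA h => free_ZCS A g hA h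
  have hcov' : IsCoveringMap (e ∘ U.map f QQ) := hcov.homeomorph_comp e
  have hq : IsCoveringMap (qM ∘ (e ∘ U.map f QQ)) :=
    hCMP (U S QQ) Mh Mq H5 (e ∘ U.map f QQ) qM hcov' hTOP.2.2
  have hsurj : Function.Surjective (qM ∘ (e ∘ U.map f QQ)) :=
    Function.Surjective.comp Quotient.mk_surjective
      (e.surjective.comp (U.map_surjective f QQ hf))
  refine ⟨⟨U S QQ, inferInstance, hU, _, hq, hsurj⟩, ?_⟩
  exact hsurj.connectedSpace hq.continuous

end TC.Asp
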