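import Pool.Agent.TC.Asp.Stmts

/-!
# POL: retractions of a polytope, given exterior points

`h σ p u = p + clamp(u) τ(p) (z_σ - p)`, `τ(p) = min_{s ∈ σ} l_s(p)/(l_s(p) - l_s(z_σ))`.
-/

set_option autoImplicit false

open scoped symmDiff
open Topology

noncomputable section

namespace TC.Asp

namespace PolAux

variable {n : ℕ} {F : Type} {l : F → (Fin n → ℝ) → ℝ} {σ : Finset F} {z p : Fin n → ℝ}

/-- The largest parameter for which the segment from `p` to `z` satisfies the inequalities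
`0 ≤ l s`, `s ∈ σ`. -/
def tau (l : F → (Fin n → ℝ) → ℝ) (σ : Finset F) (hσ : σ.Nonempty) (z p : Fin n → ℝ) : ℝ :=
  σ.inf' hσ fun s => l s p / (l s p - l s z)

theorem tau_nonneg (hσ : σ.Nonempty) (hz : ∀ s ∈ σ, l s z < 0) (hp : ∀ s, 0 ≤ l s p) :
    0 ≤ tau l σ hσ z p := by
  refine (Finset.le_inf'_iff hσ _).2 fun s hs => ?_
  exact div_nonneg (hp s) (by linarith [hp s, hz s hs])

theorem tau_mul_le (hσ : σ.Nonempty) (hz : ∀ s ∈ σ, l s z < 0) (hp : ∀ s, 0 ≤ l s p) {s : F}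
    (hs : s ∈ σ) : tau l σ hσ z p * (l s p - l s z) ≤ l s p := by
  have h1 : tau l σ hσ z p ≤ l s p / (l s p - l s z) :=
    Finset.inf'_le (fun s => l s p / (l s p - l s z)) hs
  have h2 : 0 < l s p - l s z := by linarith [hp s, hz s hs]
  exact (le_div_iff₀ h2).1 h1

theorem exists_tau_mul_eq (hσ : σ.Nonempty) (hz : ∀ s ∈ σ, l s z < 0) (hp : ∀ s, 0 ≤ l s p) :
    ∃ s ∈ σ, tau l σ hσ z p * (l s p - l s z) = l s p := by
  obtain ⟨s, hs, h⟩ := Finset.exists_mem_eq_inf' hσ (fun s => l s p / (l s p - l s z))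
  refine ⟨s, hs, ?_⟩
  have h2 : 0 < l s p - l s z := by linarith [hp s, hz s hs]
  rw [tau, h]
  exact div_mul_cancel₀ _ h2.ne'

theorem tau_le_one (hσ : σ.Nonempty) (hz : ∀ s ∈ σ, l s z < 0) (hp : ∀ s, 0 ≤ l s p) :
    tau l σ hσ z p ≤ 1 := by
  obtain ⟨s, hs⟩ := hσ
  have h1 := tau_mul_le ⟨s, hs⟩ hz hp hs
  have h2 : 0 < l s p - l s z := by linarith [hp s, hz s hs]
  by_contra h3
  push Not at h3
  nlinarith [hz s hs, hp s]

theorem tau_eq_zero (hσ : σ.Nonempty) (hz : ∀ s ∈ σ, l s z < 0) (hp : ∀ s, 0 ≤ l s p) {s : F}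
    (hs : s ∈ σ) (h0 : l s p = 0) : tau l σ hσ z p = 0 := by
  have h1 := tau_mul_le hσ hz hp hs
  have h2 := tau_nonneg hσ hz hp
  have h3 := hz s hs
  rw [h0] at h1
  by_contra h4
  have h5 : 0 < tau l σ hσ z p := lt_of_le_of_ne h2 (Ne.symm h4)
  nlinarith [mul_pos h5 (neg_pos.2 h3)]

theorem continuous_tau (hσ : σ.Nonempty) (hl : ∀ s, Continuous (l s)) (hz : ∀ s ∈ σ, l s z < 0) :
    Continuous fun p : {x : Fin n → ℝ // ∀ s, 0 ≤ l s x} => tau l σ hσ z p.1 := by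
  unfold tau
  refine Continuous.finset_inf'_apply hσ fun s hs => ?_
  refine ((hl s).comp continuous_subtype_val).div
    (((hl s).comp continuous_subtype_val).sub continuous_const) fun p => ?_
  have := p.2 s
  have := hz s hs
  show l s p.1 - l s z ≠ 0
  linarith

/-- The clamp to `[0,1]`. -/
def cl (u : ℝ) : ℝ := max 0 (min u 1)

theorem cl_nonneg (u : ℝ) : 0 ≤ cl u := le_max_left _ _

theorem cl_le_one (u : ℝ) : cl u ≤ 1 := max_le zero_le_one (min_le_right _ _)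

theorem cl_zero : cl 0 = 0 := by simp [cl]

theorem cl_one : cl 1 = 1 := by simp [cl]

theorem continuous_cl : Continuous cl := by
  unfold cl
  fun_prop

theorem mem_seg (hl : ∀ s, Aff (l s)) (hσ : σ.Nonempty) (hz : ∀ s ∈ σ, l s z < 0)
    (hz' : ∀ s, s ∉ σ → 0 ≤ l s z) (hp : ∀ s, 0 ≤ l s p) (u : ℝ) (s : F) :
    0 ≤ l s (p + (cl u * tau l σ hσ z p) • (z - p)) := by
  rw [(hl s).2]
  have h0 := tau_nonneg hσ hz hp
  have h1 := tau_le_one hσ hz hp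
  have c0 := cl_nonneg u
  have c1 := cl_le_one u
  by_cases hs : s ∈ σ
  · have h2 := tau_mul_le hσ hz hp hs
    have h3 : 0 < l s p - l s z := by linarith [hp s, hz s hs]
    have h4 : 0 ≤ tau l σ hσ z p * (l s p - l s z) := mul_nonneg h0 h3.le
    nlinarith [mul_le_mul_of_nonneg_right c1 h4]
  · have h5 : cl u * tau l σ hσ z p ≤ 1 := mul_le_one₀ c1 h0 h1
    have h6 : 0 ≤ cl u * tau l σ hσ z p := mul_nonneg c0 h0
    have h7 := mul_nonneg (sub_nonneg.2 h5) (hp s)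
    have h8 := mul_nonneg h6 (hz' s hs)
    linarith

/-- The retraction for the exterior point `z`. -/
def ret (hl : ∀ s, Aff (l s)) (hσ : σ.Nonempty) (hz : ∀ s ∈ σ, l s z < 0)
    (hz' : ∀ s, s ∉ σ → 0 ≤ l s z) (p : {x : Fin n → ℝ // ∀ s, 0 ≤ l s x}) (u : ℝ) :
    {x : Fin n → ℝ // ∀ s, 0 ≤ l s x} :=
  ⟨p.1 + (cl u * tau l σ hσ z p.1) • (z - p.1), mem_seg hl hσ hz hz' p.2 u⟩

theorem continuous_ret (hl : ∀ s, Aff (l s)) (hσ : σ.Nonempty) (hz : ∀ s ∈ σ, l s z < 0)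
    (hz' : ∀ s, s ∉ σ → 0 ≤ l s z) :
    Continuous fun a : {x : Fin n → ℝ // ∀ s, 0 ≤ l s x} × ℝ => ret hl hσ hz hz' a.1 a.2 := by
  refine Continuous.subtype_mk ?_ _
  have h1 : Continuous fun a : {x : Fin n → ℝ // ∀ s, 0 ≤ l s x} × ℝ => a.1.1 :=
    continuous_subtype_val.comp continuous_fst
  have h2 : Continuous fun a : {x : Fin n → ℝ // ∀ s, 0 ≤ l s x} × ℝ => tau l σ hσ z a.1.1 :=
    (continuous_tau hσ (fun s => (hl s).1) hz).comp continuous_fst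
  have h3 : Continuous fun a : {x : Fin n → ℝ // ∀ s, 0 ≤ l s x} × ℝ => cl a.2 :=
    continuous_cl.comp continuous_snd
  exact h1.add ((h3.mul h2).smul (continuous_const.sub h1))

theorem ret_zero (hl : ∀ s, Aff (l s)) (hσ : σ.Nonempty) (hz : ∀ s ∈ σ, l s z < 0)
    (hz' : ∀ s, s ∉ σ → 0 ≤ l s z) (p : {x : Fin n → ℝ // ∀ s, 0 ≤ l s x}) :
    ret hl hσ hz hz' p 0 = p := by
  apply Subtype.ext
  simp [ret, cl_zero]

theorem ret_one (hl : ∀ s, Aff (l s)) (hσ : σ.Nonempty) (hz : ∀ s ∈ σ, l s z < 0)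
    (hz' : ∀ s, s ∉ σ → 0 ≤ l s z) (p : {x : Fin n → ℝ // ∀ s, 0 ≤ l s x}) :
    ∃ s ∈ σ, l s (ret hl hσ hz hz' p 1).1 = 0 := by
  obtain ⟨s, hs, h⟩ := exists_tau_mul_eq hσ hz p.2
  refine ⟨s, hs, ?_⟩
  show l s (p.1 + (cl 1 * tau l σ hσ z p.1) • (z - p.1)) = 0
  rw [(hl s).2, cl_one]
  linarith

theorem ret_fix (hl : ∀ s, Aff (l s)) (hσ : σ.Nonempty) (hz : ∀ s ∈ σ, l s z < 0)
    (hz' : ∀ s, s ∉ σ → 0 ≤ l s z) (p : {x : Fin n → ℝ // ∀ s, 0 ≤ l s x}) (u : ℝ)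
    (h : ∃ s ∈ σ, l s p.1 = 0) : ret hl hσ hz hz' p u = p := by
  obtain ⟨s, hs, h0⟩ := h
  apply Subtype.ext
  simp [ret, tau_eq_zero hσ hz p.2 hs h0]

theorem convex_set (hl : ∀ s, Aff (l s)) : Convex ℝ {x : Fin n → ℝ | ∀ s, 0 ≤ l s x} := by
  intro x hx y hy a b ha hb hab s
  have h1 : a • x + b • y = x + b • (y - x) := by
    rw [← eq_sub_iff_add_eq] at hab
    rw [hab, smul_sub, sub_smul, one_smul]
    abel
  show 0 ≤ l s (a • x + b • y)
  rw [h1, (hl s).2]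
  have h2 : 0 ≤ 1 - b := by linarith
  exact add_nonneg (mul_nonneg h2 (hx s)) (mul_nonneg hb (hy s))

end PolAux

open Classical in
theorem POL : Stmt_POL := by
  intro n F _ _ adj l hl Q hQ hz
  refine ⟨⟨?_⟩, ?_⟩
  · choose z hz1 hz2 using hz
    refine
      { h := fun σ p u => if hσ : Clq adj σ ∧ σ.Nonempty then
          PolAux.ret hl hσ.2 (hz1 σ hσ.1 hσ.2) (hz2 σ hσ.1 hσ.2) p u else p
        cont := ?_
        zero := ?_
        one := ?_
        fix := ?_ }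
    · intro σ h1 h2
      simp only [dif_pos (And.intro h1 h2)]
      exact PolAux.continuous_ret hl h2 _ _
    · intro σ p h1 h2
      simp only [dif_pos (And.intro h1 h2)]
      exact PolAux.ret_zero hl h2 _ _ p
    · intro σ p h1 h2
      simp only [dif_pos (And.intro h1 h2)]
      obtain ⟨s, hs, h⟩ := PolAux.ret_one hl h2 (hz1 σ h1 h2) (hz2 σ h1 h2) p
      exact ⟨s, hs, (hQ s _).2 h⟩
    · intro σ p u h1 h2 h3
      simp only [dif_pos (And.intro h1 h2)]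
      obtain ⟨s, hs, h⟩ := h3
      exact PolAux.ret_fix hl h2 _ _ p u ⟨s, hs, (hQ s p).1 h⟩
  · rintro ⟨x, hx⟩
    exact (PolAux.convex_set hl).contractibleSpace ⟨x, hx⟩

end TC.Asp
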