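import Pool.Agent.TC.Asp.Defs
import Pool.Agent.TC.Conc

/-!
# Block ASP of MP_bc2780_gt: statements of the modules

See `ASP.md` in this folder for the proofs.
-/

set_option autoImplicit false

open scoped symmDiff
open Topology

noncomputable section

namespace TC.Asp

/-! ## Abstract part -/

/-- GAME: the numbers game. Every finite graph with coloured vertices has a chamber system with a
length function and a surjective map to `(ℤ/2)^C`. -/
def Stmt_GAME : Prop :=
  ∀ (F : Type) [Fintype F] [DecidableEq F] (adj : F → F → Prop), (∀ s t, adj s t → adj t s) →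
    ∀ (C : Type) [Fintype C] [DecidableEq C] (c : F → C), Function.Surjective c →
      ∃ (S : CS F adj) (_ : Len S) (f : Hom S (ZCS adj c)), Function.Surjective f.toFun

/-- CTR: contractibility of the development (Davis). -/
def Stmt_CTR : Prop :=
  ∀ (F : Type) [Fintype F] [DecidableEq F] (adj : F → F → Prop) (S : CS F adj) (_ : Len S)
    (P : Type) [TopologicalSpace P] (Q : Mir F adj P) (_ : Ret Q), ContractibleSpace P →
      ContractibleSpace (U S Q)

/-- COV: a map of chamber systems induces a covering map if the group generated by the reflections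
in the mirrors of a clique acts freely downstairs. -/
def Stmt_COV : Prop :=
  ∀ (F : Type) [Fintype F] [DecidableEq F] (adj : F → F → Prop) (S S' : CS F adj) (f : Hom S S')
    (P : Type) [TopologicalSpace P] (Q : Mir F adj P),
    (∀ A (g : S'.Ω), Clq adj A → S'.R A g = g → A = ∅) → IsCoveringMap (U.map f Q)

/-- A continuous affine function. -/
def Aff {n : ℕ} (l : (Fin n → ℝ) → ℝ) : Prop :=
  Continuous l ∧ ∀ (x z : Fin n → ℝ) (u : ℝ), l (x + u • (z - x)) = (1 - u) * l x + u * l z

/-- POL: retractions of a polytope, given exterior points. -/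
def Stmt_POL : Prop :=
  ∀ (n : ℕ) (F : Type) [Fintype F] [DecidableEq F] (adj : F → F → Prop)
    (l : F → (Fin n → ℝ) → ℝ), (∀ s, Aff (l s)) →
    ∀ (Q : Mir F adj {x : Fin n → ℝ // ∀ s, 0 ≤ l s x}), (∀ s p, p ∈ Q.fac s ↔ l s p.1 = 0) →
      (∀ σ, Clq adj σ → σ.Nonempty →
        ∃ z : Fin n → ℝ, (∀ s ∈ σ, l s z < 0) ∧ ∀ s, s ∉ σ → 0 ≤ l s z) →
      Nonempty (Ret Q) ∧
      ((∃ x : Fin n → ℝ, ∀ s, 0 ≤ l s x) → ContractibleSpace {x : Fin n → ℝ // ∀ s, 0 ≤ l s x})

/-- CMP: composition of a covering map and a finite quotient covering map. -/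
def Stmt_CMP : Prop :=
  ∀ (X Y Z G : Type) [TopologicalSpace X] [TopologicalSpace Y] [TopologicalSpace Z] [AddGroup G]
    [Finite G] [AddAction G Y] (f : X → Y) (q : Y → Z), IsCoveringMap f →
    IsAddQuotientCoveringMap q G → IsCoveringMap (q ∘ f)

/-! ## The concrete polytope -/

/-- The facets: `(j, false)` is `Re z_j = 1`, `(j, true)` is `Re z_j = -1`. -/
abbrev Fc := Fin 8 × Bool

/-- Pairs of facets which are not adjacent (or equal). -/
def nadjB (s t : Fc) : Bool :=
  decide (s.1 = t.1) ||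
  ((s.1 == 4 && t.1 == 5 || s.1 == 5 && t.1 == 4 || s.1 == 6 && t.1 == 7 || s.1 == 7 && t.1 == 6)
    && !s.2 && !t.2) ||
  (((s.1 == 4 || s.1 == 5) && (t.1 == 6 || t.1 == 7) ||
    (s.1 == 6 || s.1 == 7) && (t.1 == 4 || t.1 == 5)) && s.2 && t.2)

/-- Adjacency of facets. -/
def adjF (s t : Fc) : Prop := nadjB s t = false

instance : DecidableRel adjF := fun s t => inferInstanceAs (Decidable (nadjB s t = false))

/-- The affine functions which define the polytope `[0,1]^4 × P8` in `ℝ^7` and vanish on the facets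
`(j, false)`. -/
def lLo (x : Fin 7 → ℝ) : Fin 8 → ℝ := ![x 0, x 1, x 2, x 3, x 4, x 5, 1 + x 6, 1 - x 6]

/-- The affine functions which define the polytope and vanish on the facets `(j, true)`. -/
def lHi (x : Fin 7 → ℝ) : Fin 8 → ℝ :=
  ![1 - x 0, 1 - x 1, 1 - x 2, 1 - x 3, 1 - x 4, 1 - x 5,
    4 * (x 4 + x 5) - 1 - x 6, 4 * (x 4 + x 5) - 1 + x 6]

/-- The 16 affine functions. -/
def lF (s : Fc) (x : Fin 7 → ℝ) : ℝ := if s.2 then lHi x s.1 else lLo x s.1

/-- The polytope `[0,1]^4 × P8`. -/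
abbrev PP : Type := {x : Fin 7 → ℝ // ∀ s, 0 ≤ lF s x}

theorem continuous_lF (s : Fc) : Continuous (lF s) := by
  obtain ⟨j, b⟩ := s
  have h : ∀ x, lF (j, b) x = if b then lHi x j else lLo x j := fun _ => rfl
  rw [show lF (j, b) = fun x => if b then lHi x j else lLo x j from funext h]
  cases b
  · simp only [Bool.false_eq_true, if_false]
    fin_cases j <;> simp [lLo] <;> fun_prop
  · simp only [if_true]
    fin_cases j <;> simp [lHi] <;> fun_prop

theorem aff_lF (s : Fc) : Aff (lF s) := by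
  refine ⟨continuous_lF s, fun x z u => ?_⟩
  obtain ⟨j, b⟩ := s
  cases b
  · simp only [lF, Bool.false_eq_true, if_false]
    fin_cases j <;> simp [lLo] <;> ring
  · simp only [lF, if_true]
    fin_cases j <;> simp [lHi] <;> ring

theorem adj_of_lF (x : Fin 7 → ℝ) (hx : ∀ s, 0 ≤ lF s x) (s t : Fc) (hs : lF s x = 0)
    (ht : lF t x = 0) (hst : s ≠ t) : adjF s t := by
  have h4 := hx (4, false)
  have h4' := hx (4, true)
  have h5 := hx (5, false)
  have h5' := hx (5, true)
  have h6 := hx (6, false)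
  have h6' := hx (6, true)
  have h7 := hx (7, false)
  have h7' := hx (7, true)
  simp [lF, lLo, lHi] at h4 h4' h5 h5' h6 h6' h7 h7'
  unfold adjF
  by_contra hn
  rw [Bool.not_eq_false] at hn
  obtain ⟨i, a⟩ := s
  obtain ⟨j, b⟩ := t
  revert hn hs ht hst
  clear hx
  fin_cases i <;> cases a <;> fin_cases j <;> cases b <;>
    simp [nadjB, lF, lLo, lHi] <;> intros <;> linarith

/-- The polytope with its 16 facets. -/
def QQ : Mir Fc adjF PP where
  fac s := {x | lF s x.1 = 0}
  closed s := isClosed_eq ((continuous_lF s).comp continuous_subtype_val) continuous_const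
  adj_of_mem s t p hs ht hst := adj_of_lF p.1 p.2 s t hs ht hst

theorem mem_QQ (s : Fc) (p : PP) : p ∈ QQ.fac s ↔ lF s p.1 = 0 := Iff.rfl

/-- TAB: the exterior points of the polytope, an interior point, compactness. -/
def Stmt_TAB : Prop :=
  (∀ σ : Finset Fc, Clq adjF σ → σ.Nonempty →
    ∃ z : Fin 7 → ℝ, (∀ s ∈ σ, lF s z < 0) ∧ ∀ s, s ∉ σ → 0 ≤ lF s z) ∧
  (∃ x : Fin 7 → ℝ, ∀ s, 0 ≤ lF s x) ∧ CompactSpace PP

/-- FUN: the hypersurface `Mh` is obtained from `2^8` copies of the polytope. The map is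
`(g, x) ↦ z`, `z_j = exp(± i arccos (1 - 2 a_j))`, `a_j = x_j` for `j < 6`,
`a_6, a_7 = (1 ± x 6) / (4 (x 4 + x 5))`, the sign is `+` iff `g j = 0`. -/
def Stmt_FUN : Prop :=
  CompactSpace PP → Nonempty (U (ZCS adjF (Prod.fst : Fc → Fin 8)) QQ ≃ₜ Mh)

/-- MAIN: the assembly. -/
def Stmt_MAIN : Prop :=
  Stmt_GAME → Stmt_CTR → Stmt_COV → Stmt_POL → Stmt_CMP → Stmt_TAB → Stmt_FUN → TOP_main →
    ASP_main

end TC.Asp
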