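import Pool.Agent.TC.Asp.Stmts

/-!
# Exterior points of the polytope (module TAB)

The table gives for every clique of facets a point which is strictly outside exactly of these
facets. The coordinates are multiplied by four, so they are integers.
-/

set_option autoImplicit false

noncomputable section

namespace TC.Asp

/-- The points of the table, the coordinates are multiplied by four. -/
def tabT : List (ℤ × ℤ × ℤ) :=
  [(2, 2, 0), (-2, 4, -4), (4, -2, -4), (0, 4, -12), (-1, 4, -8), (4, -1, -8), (0, 4, 8),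
    (-1, 4, 5), (4, -1, 5), (8, 0, -4), (8, -4, -4), (8, 0, -16),
    (8, -4, -12), (8, 0, 8), (8, -4, 8), (0, 8, -4), (-16, 20, -4), (0, 8, -16),
    (-16, 20, -12), (0, 8, 8), (-16, 20, 8), (8, 8, -4), (8, 8, -16),
    (8, 8, 8), (0, 0, 4), (-4, 4, 4), (4, -4, 4), (0, 0, 8), (-8, 4, 20),
    (0, -4, 20), (0, 0, -4), (-4, 4, -4), (4, -4, -4), (0, 0, -16),
    (-4, 4, -16), (4, -4, -16), (0, 0, 0), (-16, 0, -4), (0, -16, -4)]

/-- The point is outside exactly of the given facets. -/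
def okT (L0 L1 L2 L3 R0 R1 R2 R3 : Bool) (m : ℤ × ℤ × ℤ) : Bool :=
  (decide (m.1 < 0) == L0) && (decide (m.2.1 < 0) == L1) && (decide (4 + m.2.2 < 0) == L2) &&
  (decide (4 - m.2.2 < 0) == L3) && (decide (4 - m.1 < 0) == R0) &&
  (decide (4 - m.2.1 < 0) == R1) && (decide (4 * (m.1 + m.2.1) - 4 - m.2.2 < 0) == R2) &&
  (decide (4 * (m.1 + m.2.1) - 4 + m.2.2 < 0) == R3)

/-- The facets form a clique. -/
def clT (L0 L1 L2 L3 R0 R1 R2 R3 : Bool) : Bool :=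
  !(L0 && R0) && !(L1 && R1) && !(L2 && R2) && !(L3 && R3) && !(L0 && L1) && !(L2 && L3) &&
  !(R0 && R2) && !(R0 && R3) && !(R1 && R2) && !(R1 && R3)

set_option maxRecDepth 100000 in
theorem tabT_ok : ∀ L0 L1 L2 L3 R0 R1 R2 R3 : Bool, clT L0 L1 L2 L3 R0 R1 R2 R3 = true →
    tabT.any (okT L0 L1 L2 L3 R0 R1 R2 R3) = true := by
  decide +kernel

theorem tabT_real (L0 L1 L2 L3 R0 R1 R2 R3 : Bool) (h : clT L0 L1 L2 L3 R0 R1 R2 R3 = true) :
    ∃ a b c : ℝ, (a < 0 ↔ L0 = true) ∧ (b < 0 ↔ L1 = true) ∧ (1 + c < 0 ↔ L2 = true) ∧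
      (1 - c < 0 ↔ L3 = true) ∧ (1 - a < 0 ↔ R0 = true) ∧ (1 - b < 0 ↔ R1 = true) ∧
      (4 * (a + b) - 1 - c < 0 ↔ R2 = true) ∧ (4 * (a + b) - 1 + c < 0 ↔ R3 = true) := by
  have h1 := tabT_ok L0 L1 L2 L3 R0 R1 R2 R3 h
  rw [List.any_eq_true] at h1
  obtain ⟨m, -, hm⟩ := h1
  unfold okT at hm
  simp only [Bool.and_eq_true, beq_iff_eq] at hm
  obtain ⟨⟨⟨⟨⟨⟨⟨h0, h1⟩, h2⟩, h3⟩, h4⟩, h5⟩, h6⟩, h7⟩ := hm
  have key : ∀ (x : ℤ) (y : ℝ) (B : Bool), y = (x : ℝ) / 4 → decide (x < 0) = B →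
      (y < 0 ↔ B = true) := by
    intro x y B hy hB
    rw [← hB, decide_eq_true_iff, hy]
    constructor
    · intro h8
      have h9 : (x : ℝ) < 0 := by linarith
      exact_mod_cast h9
    · intro h8
      have h9 : (x : ℝ) < 0 := by exact_mod_cast h8
      linarith
  refine ⟨(m.1 : ℝ) / 4, (m.2.1 : ℝ) / 4, (m.2.2 : ℝ) / 4, key _ _ _ ?_ h0, key _ _ _ ?_ h1,
    key _ _ _ ?_ h2, key _ _ _ ?_ h3, key _ _ _ ?_ h4, key _ _ _ ?_ h5, key _ _ _ ?_ h6,
    key _ _ _ ?_ h7⟩ <;> push_cast <;> ring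

/-- The first four coordinates. -/
def coT (a b : Prop) [Decidable a] [Decidable b] : ℝ := if a then -1 else if b then 2 else 1 / 2

theorem coT_lo (a b : Prop) [Decidable a] [Decidable b] : coT a b < 0 ↔ a := by
  unfold coT
  split_ifs with h1 h2 <;> simp [h1]

theorem coT_hi (a b : Prop) [Decidable a] [Decidable b] (h : ¬ (a ∧ b)) :
    1 - coT a b < 0 ↔ b := by
  unfold coT
  split_ifs with h1 h2
  · have : ¬ b := fun h3 => h ⟨h1, h3⟩
    norm_num [this]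
  · norm_num [h2]
  · norm_num [h2]

theorem clq_of (σ : Finset Fc) (h : Clq adjF σ) (s t : Fc) (hs : s ∈ σ) (ht : t ∈ σ)
    (hst : s ≠ t) (hn : nadjB s t = true) : False := by
  have h1 : nadjB s t = false := h s hs t ht hst
  rw [hn] at h1
  exact Bool.noConfusion h1

theorem tab1 (σ : Finset Fc) (h : Clq adjF σ) :
    ∃ z : Fin 7 → ℝ, ∀ s, (lF s z < 0 ↔ s ∈ σ) := by
  have hcl : clT (decide ((4, false) ∈ σ)) (decide ((5, false) ∈ σ)) (decide ((6, false) ∈ σ))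
      (decide ((7, false) ∈ σ)) (decide ((4, true) ∈ σ)) (decide ((5, true) ∈ σ))
      (decide ((6, true) ∈ σ)) (decide ((7, true) ∈ σ)) = true := by
    unfold clT
    simp only [Bool.and_eq_true, Bool.not_eq_true', Bool.and_eq_false_iff, decide_eq_false_iff_not]
    refine ⟨⟨⟨⟨⟨⟨⟨⟨⟨?_, ?_⟩, ?_⟩, ?_⟩, ?_⟩, ?_⟩, ?_⟩, ?_⟩, ?_⟩, ?_⟩ <;>
      · rw [← not_and_or]
        rintro ⟨h1, h2⟩
        exact clq_of σ h _ _ h1 h2 (by decide) (by decide)
  obtain ⟨a, b, c, h0, h1, h2, h3, h4, h5, h6, h7⟩ := tabT_real _ _ _ _ _ _ _ _ hcl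
  simp only [decide_eq_true_iff] at h0 h1 h2 h3 h4 h5 h6 h7
  have hne : ∀ j : Fin 8, ¬ ((j, false) ∈ σ ∧ (j, true) ∈ σ) := by
    rintro j ⟨h8, h9⟩
    exact clq_of σ h _ _ h8 h9 (by simp) (by simp [nadjB])
  refine ⟨![coT ((0, false) ∈ σ) ((0, true) ∈ σ), coT ((1, false) ∈ σ) ((1, true) ∈ σ),
    coT ((2, false) ∈ σ) ((2, true) ∈ σ), coT ((3, false) ∈ σ) ((3, true) ∈ σ), a, b, c], ?_⟩
  rintro ⟨j, B⟩
  cases B
  · fin_cases j
    · exact coT_lo _ _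
    · exact coT_lo _ _
    · exact coT_lo _ _
    · exact coT_lo _ _
    · exact h0
    · exact h1
    · exact h2
    · exact h3
  · fin_cases j
    · exact coT_hi _ _ (hne 0)
    · exact coT_hi _ _ (hne 1)
    · exact coT_hi _ _ (hne 2)
    · exact coT_hi _ _ (hne 3)
    · exact h4
    · exact h5
    · exact h6
    · exact h7

theorem compactT : CompactSpace PP := by
  refine (isCompact_iff_compactSpace (s := {x : Fin 7 → ℝ | ∀ s, 0 ≤ lF s x})).1 ?_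
  have hc : IsClosed {x : Fin 7 → ℝ | ∀ s, 0 ≤ lF s x} := by
    simp only [Set.ofPred_forall]
    exact isClosed_iInter fun s => isClosed_le continuous_const (continuous_lF s)
  refine (isCompact_Icc (a := fun _ : Fin 7 => (-1 : ℝ)) (b := fun _ => 1)).of_isClosed_subset hc ?_
  intro x hx
  have e : ∀ s, 0 ≤ lF s x := hx
  have a0 : 0 ≤ x 0 := e (0, false)
  have b0 : 0 ≤ 1 - x 0 := e (0, true)
  have a1 : 0 ≤ x 1 := e (1, false)
  have b1 : 0 ≤ 1 - x 1 := e (1, true)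
  have a2 : 0 ≤ x 2 := e (2, false)
  have b2 : 0 ≤ 1 - x 2 := e (2, true)
  have a3 : 0 ≤ x 3 := e (3, false)
  have b3 : 0 ≤ 1 - x 3 := e (3, true)
  have a4 : 0 ≤ x 4 := e (4, false)
  have b4 : 0 ≤ 1 - x 4 := e (4, true)
  have a5 : 0 ≤ x 5 := e (5, false)
  have b5 : 0 ≤ 1 - x 5 := e (5, true)
  have a6 : 0 ≤ 1 + x 6 := e (6, false)
  have b6 : 0 ≤ 1 - x 6 := e (7, false)
  constructor
  · intro i
    fin_cases i <;> simp <;> linarith
  · intro i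
    fin_cases i <;> simp <;> linarith

theorem TAB : Stmt_TAB := by
  refine ⟨?_, ?_, compactT⟩
  · intro σ hσ _
    obtain ⟨z, hz⟩ := tab1 σ hσ
    exact ⟨z, fun s hs => (hz s).2 hs, fun s hs => not_lt.1 fun h => hs ((hz s).1 h)⟩
  · obtain ⟨z, hz⟩ := tab1 ∅ (fun s hs => absurd hs (Finset.notMem_empty s))
    exact ⟨z, fun s => not_lt.1 fun h => Finset.notMem_empty s ((hz s).1 h)⟩

end TC.Asp
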